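import Mathlib

set_option autoImplicit false

/-! Formal Dirichlet polynomials in `m^{-s} * conj (n^{-s})`. -/

namespace Pool.Agent.W184.NZ

open Finset MonoidAlgebra

/-- formal real combinations of the monomials `(m, n)` -/
abbrev DA := MonoidAlgebra ℝ (ℕ × ℕ)

/-- the linear functional with the values `w` on the monomials -/
noncomputable def lam (w : ℕ × ℕ → ℝ) : DA →ₗ[ℝ] ℝ where
  toFun f := f.coeff.sum fun x c => c * w x
  map_add' f g := by
    rw [coeff_add, Finsupp.sum_add_index']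
    · intro x; simp
    · intro x a b; ring
  map_smul' a f := by
    rw [coeff_smul, Finsupp.sum_smul_index (by intro x; simp), Finsupp.smul_sum]
    refine Finsupp.sum_congr fun x _ => ?_
    simp only [smul_eq_mul, RingHom.id_apply]
    ring

lemma lam_apply (w : ℕ × ℕ → ℝ) (f : DA) : lam w f = f.coeff.sum fun x c => c * w x := rfl

lemma lam_single (w : ℕ × ℕ → ℝ) (x : ℕ × ℕ) (c : ℝ) : lam w (single x c) = c * w x := by
  rw [lam_apply, coeff_single, Finsupp.sum_single_index (by simp)]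

lemma lam_mul_gen (w : ℕ × ℕ → ℝ) (f g : DA) : lam w (f * g) =
    ∑ x ∈ f.coeff.support, ∑ y ∈ g.coeff.support, f.coeff x * g.coeff y * w (x * y) := by
  rw [MonoidAlgebra.mul_def, Finsupp.sum, map_sum]
  refine sum_congr rfl fun x _ => ?_
  rw [Finsupp.sum, map_sum]
  refine sum_congr rfl fun y _ => ?_
  rw [lam_single]

lemma lam_mul {w : ℕ × ℕ → ℝ} {f g : DA}
    (h : ∀ x ∈ f.coeff.support, ∀ y ∈ g.coeff.support, w (x * y) = w x * w y) :
    lam w (f * g) = lam w f * lam w g := by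
  rw [lam_mul_gen, lam_apply, lam_apply, Finsupp.sum, Finsupp.sum, sum_mul_sum]
  refine sum_congr rfl fun x hx => sum_congr rfl fun y hy => ?_
  rw [h x hx y hy]; ring

lemma lam_mul_add {w v : ℕ × ℕ → ℝ} {f g : DA}
    (h : ∀ x ∈ f.coeff.support, ∀ y ∈ g.coeff.support, w (x * y) = w x * v y + v x * w y) :
    lam w (f * g) = lam w f * lam v g + lam v f * lam w g := by
  rw [lam_mul_gen, lam_apply, lam_apply, lam_apply, lam_apply, Finsupp.sum, Finsupp.sum, Finsupp.sum,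
    Finsupp.sum, sum_mul_sum, sum_mul_sum, ← sum_add_distrib]
  refine sum_congr rfl fun x hx => ?_
  rw [← sum_add_distrib]
  refine sum_congr rfl fun y hy => ?_
  rw [h x hx y hy]; ring

/-- the elements supported in a submonoid -/
def SA (M : Submonoid (ℕ × ℕ)) : Subalgebra ℝ DA where
  carrier := {f | ∀ x ∈ f.coeff.support, x ∈ M}
  mul_mem' {f g} hf hg := by
    classical
    intro x hx
    have := support_coeff_mul_subset f g hx
    rw [Finset.mem_mul] at this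
    obtain ⟨y, hy, z, hz, rfl⟩ := this
    exact M.mul_mem (hf y hy) (hg z hz)
  add_mem' {f g} hf hg := by
    classical
    intro x hx
    rw [coeff_add] at hx
    have := Finsupp.support_add hx
    rw [Finset.mem_union] at this
    exact this.elim (hf x) (hg x)
  algebraMap_mem' r := by
    intro x hx
    rw [Algebra.algebraMap_eq_smul_one, MonoidAlgebra.one_def, MonoidAlgebra.smul_single,
      coeff_single] at hx
    have := Finsupp.support_single_subset hx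
    rw [Finset.mem_singleton] at this
    rw [this]; exact M.one_mem

lemma mem_SA {M : Submonoid (ℕ × ℕ)} {f : DA} : f ∈ SA M ↔ ∀ x ∈ f.coeff.support, x ∈ M := Iff.rfl

lemma single_mem_SA {M : Submonoid (ℕ × ℕ)} {x : ℕ × ℕ} (hx : x ∈ M) (c : ℝ) : single x c ∈ SA M := by
  intro y hy
  rw [coeff_single] at hy
  have := Finsupp.support_single_subset hy
  rw [Finset.mem_singleton] at this
  rw [this]; exact hx

/-- the monomials all of whose primes lie in `I` -/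
def MI (I : Finset ℕ) : Submonoid (ℕ × ℕ) where
  carrier := {x | x.1 ≠ 0 ∧ x.2 ≠ 0 ∧ ∀ p : ℕ, p.Prime → (p ∣ x.1 ∨ p ∣ x.2) → p ∈ I}
  mul_mem' {x y} hx hy := by
    refine ⟨mul_ne_zero hx.1 hy.1, mul_ne_zero hx.2.1 hy.2.1, fun p hp h => ?_⟩
    rcases h with h | h
    · rcases (Nat.Prime.dvd_mul hp).mp h with h | h
      · exact hx.2.2 p hp (Or.inl h)
      · exact hy.2.2 p hp (Or.inl h)
    · rcases (Nat.Prime.dvd_mul hp).mp h with h | h
      · exact hx.2.2 p hp (Or.inr h)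
      · exact hy.2.2 p hp (Or.inr h)
  one_mem' := by
    refine ⟨one_ne_zero, one_ne_zero, fun p hp h => ?_⟩
    rcases h with h | h <;> exact absurd h (by simpa using hp.one_lt.ne')

lemma mem_MI {I : Finset ℕ} {x : ℕ × ℕ} :
    x ∈ MI I ↔ x.1 ≠ 0 ∧ x.2 ≠ 0 ∧ ∀ p : ℕ, p.Prime → (p ∣ x.1 ∨ p ∣ x.2) → p ∈ I := Iff.rfl

lemma MI_mono {I J : Finset ℕ} (h : I ⊆ J) {x : ℕ × ℕ} (hx : x ∈ MI I) : x ∈ MI J :=
  ⟨hx.1, hx.2.1, fun p hp hd => h (hx.2.2 p hp hd)⟩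

lemma SA_mono {I J : Finset ℕ} (h : I ⊆ J) {f : DA} (hf : f ∈ SA (MI I)) : f ∈ SA (MI J) :=
  fun x hx => MI_mono h (hf x hx)

lemma MI_coprime {I J : Finset ℕ} (hIJ : Disjoint I J) {x y : ℕ × ℕ} (hx : x ∈ MI I) (hy : y ∈ MI J) :
    Nat.Coprime x.1 y.1 ∧ Nat.Coprime x.1 y.2 ∧ Nat.Coprime x.2 y.1 ∧ Nat.Coprime x.2 y.2 := by
  have key : ∀ a b : ℕ, (a = x.1 ∨ a = x.2) → (b = y.1 ∨ b = y.2) → Nat.Coprime a b := by
    intro a b ha hb
    refine Nat.coprime_of_dvd fun p hp hpa hpb => ?_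
    refine Finset.disjoint_left.mp hIJ (hx.2.2 p hp ?_) (hy.2.2 p hp ?_)
    · rcases ha with rfl | rfl
      · exact Or.inl hpa
      · exact Or.inr hpa
    · rcases hb with rfl | rfl
      · exact Or.inl hpb
      · exact Or.inr hpb
  exact ⟨key _ _ (Or.inl rfl) (Or.inl rfl), key _ _ (Or.inl rfl) (Or.inr rfl),
    key _ _ (Or.inr rfl) (Or.inl rfl), key _ _ (Or.inr rfl) (Or.inr rfl)⟩

/-- diagonal weight -/
noncomputable def w0 (x : ℕ × ℕ) : ℝ := if x.1 = x.2 then 1 / (x.1 : ℝ) else 0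

/-- weight of the twisted second moment -/
noncomputable def w1 (x : ℕ × ℕ) : ℝ := (Nat.gcd x.1 x.2 : ℝ) / ((x.1 : ℝ) * x.2)

/-- logarithmic weight -/
noncomputable def wl (x : ℕ × ℕ) : ℝ :=
  w1 x * Real.log ((x.1 : ℝ) * x.2 / (Nat.gcd x.1 x.2 : ℝ) ^ 2)

lemma w0_nonneg (x : ℕ × ℕ) : 0 ≤ w0 x := by unfold w0; split_ifs <;> positivity

lemma w1_nonneg (x : ℕ × ℕ) : 0 ≤ w1 x := by unfold w1; positivity

lemma w0_mul {x y : ℕ × ℕ} (h12 : Nat.Coprime x.1 y.2) (h21 : Nat.Coprime x.2 y.1)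
    (hx : x.1 ≠ 0) : w0 (x * y) = w0 x * w0 y := by
  have hiff : x.1 * y.1 = x.2 * y.2 ↔ x.1 = x.2 ∧ y.1 = y.2 := by
    constructor
    · intro h
      have h1 : x.1 ∣ x.2 := h12.dvd_of_dvd_mul_right ⟨y.1, h.symm⟩
      have h2 : x.2 ∣ x.1 := h21.dvd_of_dvd_mul_right ⟨y.2, h⟩
      have h3 := Nat.dvd_antisymm h1 h2
      refine ⟨h3, ?_⟩
      rw [← h3] at h
      exact Nat.eq_of_mul_eq_mul_left (Nat.pos_of_ne_zero hx) h
    · rintro ⟨h1, h2⟩; rw [h1, h2]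
  unfold w0
  simp only [Prod.fst_mul, Prod.snd_mul]
  by_cases h1 : x.1 = x.2
  · by_cases h2 : y.1 = y.2
    · rw [if_pos (hiff.mpr ⟨h1, h2⟩), if_pos h1, if_pos h2]
      push_cast; rw [one_div_mul_one_div]
    · rw [if_neg (fun h => h2 (hiff.mp h).2), if_neg h2, mul_zero]
  · rw [if_neg (fun h => h1 (hiff.mp h).1), if_neg h1, zero_mul]

lemma gcd_mul_mul {a b c d : ℕ} (had : Nat.Coprime a d) (hbc : Nat.Coprime c b) (hcd : Nat.Coprime c d) :
    Nat.gcd (a * b) (c * d) = Nat.gcd a c * Nat.gcd b d := by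
  rw [Nat.Coprime.gcd_mul _ hcd]
  congr 1
  · exact Nat.Coprime.gcd_mul_right_cancel a hbc.symm
  · exact Nat.Coprime.gcd_mul_left_cancel b had

lemma w1_mul {x y : ℕ × ℕ} (h12 : Nat.Coprime x.1 y.2) (h21 : Nat.Coprime x.2 y.1)
    (h22 : Nat.Coprime x.2 y.2) : w1 (x * y) = w1 x * w1 y := by
  unfold w1
  simp only [Prod.fst_mul, Prod.snd_mul]
  rw [gcd_mul_mul h12 h21 h22]
  push_cast
  rw [div_mul_div_comm]
  ring

lemma wl_mul {x y : ℕ × ℕ} (h12 : Nat.Coprime x.1 y.2) (h21 : Nat.Coprime x.2 y.1)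
    (h22 : Nat.Coprime x.2 y.2) (hx1 : x.1 ≠ 0) (hx2 : x.2 ≠ 0) (hy1 : y.1 ≠ 0) (hy2 : y.2 ≠ 0) :
    wl (x * y) = wl x * w1 y + w1 x * wl y := by
  unfold wl
  rw [w1_mul h12 h21 h22]
  simp only [Prod.fst_mul, Prod.snd_mul]
  rw [gcd_mul_mul h12 h21 h22]
  have a1 : (x.1:ℝ) ≠ 0 := by exact_mod_cast hx1
  have a2 : (x.2:ℝ) ≠ 0 := by exact_mod_cast hx2
  have a3 : (y.1:ℝ) ≠ 0 := by exact_mod_cast hy1
  have a4 : (y.2:ℝ) ≠ 0 := by exact_mod_cast hy2
  have a5 : (Nat.gcd x.1 x.2 : ℝ) ≠ 0 := by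
    exact_mod_cast (Nat.gcd_pos_of_pos_left _ (Nat.pos_of_ne_zero hx1)).ne'
  have a6 : (Nat.gcd y.1 y.2 : ℝ) ≠ 0 := by
    exact_mod_cast (Nat.gcd_pos_of_pos_left _ (Nat.pos_of_ne_zero hy1)).ne'
  have e : ((x.1 * y.1 : ℕ) : ℝ) * ((x.2 * y.2 : ℕ) : ℝ) / ((Nat.gcd x.1 x.2 * Nat.gcd y.1 y.2 : ℕ) : ℝ) ^ 2 =
      ((x.1 : ℝ) * x.2 / (Nat.gcd x.1 x.2 : ℝ) ^ 2) * ((y.1 : ℝ) * y.2 / (Nat.gcd y.1 y.2 : ℝ) ^ 2) := by
    push_cast; field_simp
  rw [e, Real.log_mul (by positivity) (by positivity)]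
  ring

lemma wl_nonneg {x : ℕ × ℕ} (hx1 : x.1 ≠ 0) (hx2 : x.2 ≠ 0) : 0 ≤ wl x := by
  unfold wl
  refine mul_nonneg (w1_nonneg x) (Real.log_nonneg ?_)
  have g1 : 0 < Nat.gcd x.1 x.2 := Nat.gcd_pos_of_pos_left _ (Nat.pos_of_ne_zero hx1)
  have g2 : Nat.gcd x.1 x.2 ≤ x.1 := Nat.gcd_le_left _ (Nat.pos_of_ne_zero hx1)
  have g3 : Nat.gcd x.1 x.2 ≤ x.2 := Nat.gcd_le_right _ (Nat.pos_of_ne_zero hx2)
  have g4 : (0:ℝ) < Nat.gcd x.1 x.2 := by exact_mod_cast g1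
  have g5 : (Nat.gcd x.1 x.2 : ℝ) ≤ x.1 := by exact_mod_cast g2
  have g6 : (Nat.gcd x.1 x.2 : ℝ) ≤ x.2 := by exact_mod_cast g3
  rw [le_div_iff₀ (by positivity), one_mul, sq]
  exact mul_le_mul g5 g6 g4.le (by positivity)

lemma wl_le {x : ℕ × ℕ} (hx1 : x.1 ≠ 0) (hx2 : x.2 ≠ 0) {N : ℝ} (h1 : (x.1:ℝ) ≤ N) (h2 : (x.2:ℝ) ≤ N) :
    wl x ≤ 2 * Real.log N * w1 x := by
  unfold wl
  rw [mul_comm]
  refine mul_le_mul_of_nonneg_right ?_ (w1_nonneg x)
  have g1 : 0 < Nat.gcd x.1 x.2 := Nat.gcd_pos_of_pos_left _ (Nat.pos_of_ne_zero hx1)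
  have g4 : (1:ℝ) ≤ Nat.gcd x.1 x.2 := by exact_mod_cast g1
  have a1 : (0:ℝ) < x.1 := by exact_mod_cast Nat.pos_of_ne_zero hx1
  have a2 : (0:ℝ) < x.2 := by exact_mod_cast Nat.pos_of_ne_zero hx2
  have hN : 0 < N := a1.trans_le h1
  have : (x.1 : ℝ) * x.2 / (Nat.gcd x.1 x.2 : ℝ) ^ 2 ≤ N ^ 2 := by
    rw [div_le_iff₀ (by positivity)]
    calc (x.1 : ℝ) * x.2 ≤ N * N := mul_le_mul h1 h2 a2.le hN.le
      _ = N ^ 2 * 1 := by ring
      _ ≤ N ^ 2 * (Nat.gcd x.1 x.2 : ℝ) ^ 2 := by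
          refine mul_le_mul_of_nonneg_left ?_ (by positivity)
          exact one_le_pow₀ g4
  calc Real.log ((x.1 : ℝ) * x.2 / (Nat.gcd x.1 x.2 : ℝ) ^ 2) ≤ Real.log (N ^ 2) :=
        Real.log_le_log (by positivity) this
    _ = 2 * Real.log N := by rw [Real.log_pow]; push_cast; ring

/-- multiplicativity of the functionals for disjoint sets of primes -/
lemma lam0_mul {I J : Finset ℕ} (hIJ : Disjoint I J) {f g : DA} (hf : f ∈ SA (MI I)) (hg : g ∈ SA (MI J)) :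
    lam w0 (f * g) = lam w0 f * lam w0 g := by
  refine lam_mul fun x hx y hy => ?_
  have h := MI_coprime hIJ (hf x hx) (hg y hy)
  exact w0_mul h.2.1 h.2.2.1 (hf x hx).1

lemma lam1_mul {I J : Finset ℕ} (hIJ : Disjoint I J) {f g : DA} (hf : f ∈ SA (MI I)) (hg : g ∈ SA (MI J)) :
    lam w1 (f * g) = lam w1 f * lam w1 g := by
  refine lam_mul fun x hx y hy => ?_
  have h := MI_coprime hIJ (hf x hx) (hg y hy)
  exact w1_mul h.2.1 h.2.2.1 h.2.2.2

lemma laml_mul {I J : Finset ℕ} (hIJ : Disjoint I J) {f g : DA} (hf : f ∈ SA (MI I)) (hg : g ∈ SA (MI J)) :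
    lam wl (f * g) = lam wl f * lam w1 g + lam w1 f * lam wl g := by
  refine lam_mul_add fun x hx y hy => ?_
  have h := MI_coprime hIJ (hf x hx) (hg y hy)
  exact wl_mul h.2.1 h.2.2.1 h.2.2.2 (hf x hx).1 (hf x hx).2.1 (hg y hy).1 (hg y hy).2.1

/-- sum of the absolute values of the coefficients -/
noncomputable def l1 (f : DA) : ℝ := ∑ x ∈ f.coeff.support, |f.coeff x|

lemma l1_nonneg (f : DA) : 0 ≤ l1 f := sum_nonneg fun _ _ => abs_nonneg _

lemma l1_eq {f : DA} {s : Finset (ℕ × ℕ)} (h : f.coeff.support ⊆ s) : l1 f = ∑ x ∈ s, |f.coeff x| := by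
  refine sum_subset h fun x _ hx => ?_
  rw [Finsupp.notMem_support_iff.mp hx, abs_zero]

lemma l1_add (f g : DA) : l1 (f + g) ≤ l1 f + l1 g := by
  classical
  have h : (f + g).coeff.support ⊆ f.coeff.support ∪ g.coeff.support := by
    rw [coeff_add]; exact Finsupp.support_add
  rw [l1_eq h, l1_eq (f := f) subset_union_left, l1_eq (f := g) subset_union_right, ← sum_add_distrib]
  refine sum_le_sum fun x _ => ?_
  rw [coeff_add, Finsupp.add_apply]
  exact abs_add_le _ _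

lemma l1_zero : l1 0 = 0 := by simp [l1]

lemma l1_sum {ι : Type*} (s : Finset ι) (f : ι → DA) : l1 (∑ i ∈ s, f i) ≤ ∑ i ∈ s, l1 (f i) := by
  classical
  induction s using Finset.induction_on with
  | empty => simp [l1_zero]
  | insert a s ha ih =>
    rw [sum_insert ha, sum_insert ha]
    exact (l1_add _ _).trans (by linarith)

lemma l1_single (x : ℕ × ℕ) (c : ℝ) : l1 (single x c) = |c| := by
  have h : (single x c : DA).coeff.support ⊆ {x} := by
    rw [coeff_single]; exact Finsupp.support_single_subset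
  rw [l1_eq h, sum_singleton, coeff_single, Finsupp.single_eq_same]

lemma l1_smul (a : ℝ) (f : DA) : l1 (a • f) ≤ |a| * l1 f := by
  have h : (a • f).coeff.support ⊆ f.coeff.support := by
    rw [coeff_smul]; exact Finsupp.support_smul
  rw [l1_eq h, l1, mul_sum]
  refine sum_le_sum fun x _ => ?_
  rw [coeff_smul, Finsupp.smul_apply, smul_eq_mul, abs_mul]

lemma l1_mul (f g : DA) : l1 (f * g) ≤ l1 f * l1 g := by
  rw [MonoidAlgebra.mul_def, Finsupp.sum]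
  refine (l1_sum _ _).trans ?_
  rw [l1, l1, sum_mul_sum]
  refine sum_le_sum fun x _ => ?_
  rw [Finsupp.sum]
  refine (l1_sum _ _).trans ?_
  refine sum_le_sum fun y _ => ?_
  rw [l1_single, abs_mul]

lemma l1_one : l1 1 = 1 := by
  rw [MonoidAlgebra.one_def, l1_single, abs_one]

lemma l1_pow (f : DA) (k : ℕ) : l1 (f ^ k) ≤ l1 f ^ k := by
  induction k with
  | zero => rw [pow_zero, pow_zero, l1_one]
  | succ k ih =>
    rw [pow_succ, pow_succ]
    exact (l1_mul _ _).trans (mul_le_mul_of_nonneg_right ih (l1_nonneg _))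

/-- supported on monomials with both entries in `[1, N]` -/
def Bd (N : ℝ) (f : DA) : Prop :=
  ∀ x ∈ f.coeff.support, (x.1 ≠ 0 ∧ x.2 ≠ 0) ∧ (x.1 : ℝ) ≤ N ∧ (x.2 : ℝ) ≤ N

lemma Bd.mono {N M : ℝ} {f : DA} (h : Bd N f) (hNM : N ≤ M) : Bd M f :=
  fun x hx => ⟨(h x hx).1, (h x hx).2.1.trans hNM, (h x hx).2.2.trans hNM⟩

lemma Bd.mul {N M : ℝ} {f g : DA} (hf : Bd N f) (hg : Bd M g) : Bd (N * M) (f * g) := by
  classical
  intro x hx
  have := support_coeff_mul_subset f g hx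
  rw [Finset.mem_mul] at this
  obtain ⟨y, hy, z, hz, rfl⟩ := this
  have h1 := hf y hy
  have h2 := hg z hz
  have n1 : 0 ≤ N := (Nat.cast_nonneg _).trans h1.2.1
  refine ⟨⟨mul_ne_zero h1.1.1 h2.1.1, mul_ne_zero h1.1.2 h2.1.2⟩, ?_, ?_⟩
  · rw [Prod.fst_mul]; push_cast
    exact mul_le_mul h1.2.1 h2.2.1 (by positivity) n1
  · rw [Prod.snd_mul]; push_cast
    exact mul_le_mul h1.2.2 h2.2.2 (by positivity) n1

lemma Bd.add {N : ℝ} {f g : DA} (hf : Bd N f) (hg : Bd N g) : Bd N (f + g) := by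
  classical
  intro x hx
  rw [coeff_add] at hx
  have := Finsupp.support_add hx
  rw [Finset.mem_union] at this
  exact this.elim (hf x) (hg x)

lemma Bd.zero {N : ℝ} : Bd N 0 := by
  intro x hx; simp at hx

lemma Bd.sum {N : ℝ} {ι : Type*} {s : Finset ι} {f : ι → DA} (h : ∀ i ∈ s, Bd N (f i)) :
    Bd N (∑ i ∈ s, f i) := by
  classical
  induction s using Finset.induction_on with
  | empty => rw [sum_empty]; exact Bd.zero
  | insert a s ha ih =>
    rw [sum_insert ha]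
    exact (h a (mem_insert_self _ _)).add (ih fun i hi => h i (mem_insert_of_mem hi))

lemma Bd.smul {N : ℝ} {f : DA} (hf : Bd N f) (a : ℝ) : Bd N (a • f) := by
  intro x hx
  rw [coeff_smul] at hx
  exact hf x (Finsupp.support_smul hx)

lemma Bd.single {N : ℝ} {x : ℕ × ℕ} (h : (x.1 ≠ 0 ∧ x.2 ≠ 0) ∧ (x.1 : ℝ) ≤ N ∧ (x.2 : ℝ) ≤ N) (c : ℝ) :
    Bd N (single x c) := by
  intro y hy
  rw [coeff_single] at hy
  have := Finsupp.support_single_subset hy
  rw [Finset.mem_singleton] at this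
  rw [this]; exact h

lemma Bd.one : Bd 1 1 := by
  rw [MonoidAlgebra.one_def]
  exact Bd.single (by simp) _

lemma Bd.pow {N : ℝ} {f : DA} (hf : Bd N f) (k : ℕ) : Bd (N ^ k) (f ^ k) := by
  induction k with
  | zero => rw [pow_zero, pow_zero]; exact Bd.one
  | succ k ih => rw [pow_succ, pow_succ]; exact ih.mul hf

/-- comparison of two functionals -/
lemma lam_sub_le {w v : ℕ × ℕ → ℝ} {f : DA} {e : ℝ} (h : ∀ x ∈ f.coeff.support, |w x - v x| ≤ e) :
    |lam w f - lam v f| ≤ e * l1 f := by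
  rw [lam_apply, lam_apply, Finsupp.sum, Finsupp.sum, ← sum_sub_distrib, l1, mul_sum]
  refine (abs_sum_le_sum_abs _ _).trans (sum_le_sum fun x hx => ?_)
  rw [← mul_sub, abs_mul, mul_comm]
  exact mul_le_mul_of_nonneg_right (h x hx) (abs_nonneg _)

end Pool.Agent.W184.NZ
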