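import Pool.Agent.H27.G.R_seed8.W184.NZ.Alg

set_option autoImplicit false

/-! Laws of one unimodular variable: uniform, or harmonic measure. -/

namespace Pool.Agent.W184.NZ

open Finset MeasureTheory Metric Real

lemma integrable_of_bdd {E : Type*} [NormedAddCommGroup E] {ν : Measure ℂ} [IsFiniteMeasure ν] {B : ℝ}
    (hB : ∀ᵐ z ∂ν, ‖z‖ ≤ B) {f : ℂ → E} (hf : Continuous f) : Integrable f ν := by
  obtain ⟨C, hC⟩ := (isCompact_closedBall (0:ℂ) B).exists_bound_of_continuousOn hf.continuousOn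
  refine Integrable.of_bound hf.aestronglyMeasurable C ?_
  filter_upwards [hB] with z hz
  exact hC z (by rw [mem_closedBall_zero_iff]; exact hz)

lemma mob_norm {a : ℝ} {u : ℂ} (hu : ‖u‖ = 1) : ‖u + a‖ = ‖1 + a * u‖ := by
  have h1 : u.re ^ 2 + u.im ^ 2 = 1 := by
    have := Complex.sq_norm u
    rw [hu, Complex.normSq_apply] at this
    nlinarith
  have h2 : ‖u + a‖ ^ 2 = ‖1 + a * u‖ ^ 2 := by
    rw [Complex.sq_norm, Complex.sq_norm, Complex.normSq_apply, Complex.normSq_apply]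
    simp
    linear_combination (1 - a ^ 2) * h1
  exact (sq_eq_sq₀ (norm_nonneg _) (norm_nonneg _)).mp h2

lemma mob_den {a : ℝ} (ha : 0 ≤ a) (ha1 : a < 1) {u : ℂ} (hu : ‖u‖ ≤ 1) : (1 : ℂ) + a * u ≠ 0 := by
  intro h
  have h1 : (a : ℂ) * u = -1 := by linear_combination h
  have h2 : ‖(a : ℂ) * u‖ = 1 := by rw [h1]; simp
  rw [norm_mul, Complex.norm_real, Real.norm_of_nonneg ha] at h2
  nlinarith [norm_nonneg u]

theorem single_law {r a : ℝ} (hr : 0 < r) (ha : 0 ≤ a) (ha1 : a < 1) :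
    ∃ μ : Measure ℂ, IsProbabilityMeasure μ ∧ (∀ᵐ z ∂μ, ‖z‖ = r) ∧
      ∀ k l : ℕ, ∫ z, z ^ k * (starRingEnd ℂ z) ^ l ∂μ =
        (((r ^ 2) ^ (min k l) * (r * a) ^ (max k l - min k l) : ℝ) : ℂ) := by
  have hpi := Real.pi_pos
  set ψ : ℂ → ℂ := fun u => r * (u + a) / (1 + a * u) with hψ
  set g : ℝ → ℂ := fun θ => ψ (circleMap 0 1 θ) with hg
  have hu : ∀ θ, ‖circleMap 0 1 θ‖ = 1 := by intro θ; simp
  have hgc : Continuous g := by
    rw [hg]
    simp only [hψ]
    refine Continuous.div ?_ ?_ fun θ => mob_den ha ha1 (hu θ).le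
    · have := continuous_circleMap 0 1; fun_prop
    · have := continuous_circleMap 0 1; fun_prop
  have hgn : ∀ θ, ‖g θ‖ = r := by
    intro θ
    rw [hg]
    simp only [hψ]
    have h0 := mob_den ha ha1 (hu θ).le
    rw [norm_div, norm_mul, mob_norm (hu θ), Complex.norm_real, Real.norm_of_nonneg hr.le,
      mul_div_assoc, div_self (norm_ne_zero_iff.mpr h0), mul_one]
  set m0 : Measure ℝ := ENNReal.ofReal (2 * π)⁻¹ • volume.restrict (Set.Ioc 0 (2 * π)) with hm0
  have hm0p : IsProbabilityMeasure m0 := by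
    refine ⟨?_⟩
    rw [hm0, Measure.smul_apply, Measure.restrict_apply_univ, Real.volume_Ioc, smul_eq_mul, sub_zero,
      ← ENNReal.ofReal_mul (by positivity), inv_mul_cancel₀ (by positivity), ENNReal.ofReal_one]
  have hint : ∀ f : ℂ → ℂ, Continuous f → ∫ z, f z ∂(m0.map g) =
      (2 * π)⁻¹ * ∫ θ in (0:ℝ)..(2 * π), f (g θ) := by
    intro f hf
    rw [integral_map hgc.measurable.aemeasurable hf.aestronglyMeasurable, hm0, integral_smul_measure,
      intervalIntegral.integral_of_le (by positivity), ENNReal.toReal_ofReal (by positivity),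
      Complex.real_smul]
  have hpow : ∀ n : ℕ, (2 * π)⁻¹ * ∫ θ in (0:ℝ)..(2 * π), (g θ) ^ n = (((r * a) ^ n : ℝ) : ℂ) := by
    intro n
    have hd : DiffContOnCl ℂ (fun u => ψ u ^ n) (ball 0 |(1:ℝ)|) := by
      refine DifferentiableOn.diffContOnCl ?_
      intro u hu'
      have hu1 : ‖u‖ ≤ 1 := by
        have := closure_ball_subset_closedBall hu'
        rw [mem_closedBall_zero_iff] at this
        simpa using this
      refine DifferentiableAt.differentiableWithinAt ?_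
      refine DifferentiableAt.pow ?_ n
      exact DifferentiableAt.div (by fun_prop) (by fun_prop) (mob_den ha ha1 hu1)
    have h1 := hd.circleAverage
    rw [circleAverage_def, Complex.real_smul] at h1
    have h2 : ψ 0 ^ n = (((r * a) ^ n : ℝ) : ℂ) := by
      rw [hψ]; simp
    rw [h2] at h1
    rw [← h1]
  refine ⟨m0.map g, Measure.isProbabilityMeasure_map hgc.measurable.aemeasurable, ?_, ?_⟩
  · rw [ae_map_iff hgc.measurable.aemeasurable (measurableSet_eq_fun measurable_norm measurable_const)]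
    exact Filter.Eventually.of_forall hgn
  · intro k l
    have hzz : ∀ θ, g θ * (starRingEnd ℂ) (g θ) = ((r ^ 2 : ℝ) : ℂ) := by
      intro θ
      rw [Complex.mul_conj, Complex.normSq_eq_norm_sq, hgn]
    rw [hint _ (by fun_prop)]
    rcases le_total l k with h | h
    · rw [min_eq_right h, max_eq_left h]
      have e : ∀ θ, (g θ) ^ k * (starRingEnd ℂ (g θ)) ^ l = ((r ^ 2 : ℝ) : ℂ) ^ l * (g θ) ^ (k - l) := by
        intro θ
        rw [← hzz θ, mul_pow]
        conv_lhs => rw [← Nat.sub_add_cancel h, pow_add]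
        ring
      simp_rw [e]
      rw [intervalIntegral.integral_const_mul, mul_left_comm, hpow]
      push_cast; rfl
    · rw [min_eq_left h, max_eq_right h]
      have e : ∀ θ, (g θ) ^ k * (starRingEnd ℂ (g θ)) ^ l =
          ((r ^ 2 : ℝ) : ℂ) ^ k * (starRingEnd ℂ) ((g θ) ^ (l - k)) := by
        intro θ
        rw [← hzz θ, mul_pow, map_pow]
        conv_lhs => rw [← Nat.sub_add_cancel h, pow_add]
        ring
      simp_rw [e]
      have h3 : ∫ θ in (0:ℝ)..(2 * π), (starRingEnd ℂ) ((g θ) ^ (l - k)) =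
          (starRingEnd ℂ) (∫ θ in (0:ℝ)..(2 * π), (g θ) ^ (l - k)) := by
        rw [intervalIntegral.integral_of_le (by positivity), intervalIntegral.integral_of_le (by positivity)]
        exact integral_conj
      have h4 : (((2 * π)⁻¹ : ℝ) : ℂ) = (starRingEnd ℂ) (((2 * π)⁻¹ : ℝ) : ℂ) :=
        (Complex.conj_ofReal _).symm
      rw [intervalIntegral.integral_const_mul, mul_left_comm, h3, h4, ← map_mul, hpow, Complex.conj_ofReal]
      push_cast; rfl

lemma exp_cubic {y : ℝ} (hy : |y| ≤ 1) : Real.exp y ≤ 1 + y + y ^ 2 / 2 + |y| ^ 3 := by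
  have h := Real.exp_bound hy (n := 3) (by norm_num)
  have h1 := (abs_le.mp h).2
  simp only [sum_range_succ, sum_range_zero, Nat.factorial] at h1
  norm_num at h1
  have h2 : 0 ≤ |y| ^ 3 := by positivity
  linarith

theorem single_exp {μ : Measure ℂ} [IsProbabilityMeasure μ] {r a : ℝ} (hr : 0 < r) (ha : 0 ≤ a)
    (hn : ∀ᵐ z ∂μ, ‖z‖ = r)
    (hm : ∀ k l : ℕ, ∫ z, z ^ k * (starRingEnd ℂ z) ^ l ∂μ =
        (((r ^ 2) ^ (min k l) * (r * a) ^ (max k l - min k l) : ℝ) : ℂ))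
    {c : ℂ} (hc : ‖c‖ * r ≤ 1) :
    ∫ z, Real.exp ((c * z).re) ∂μ ≤
      Real.exp (c.re * (r * a) + ‖c‖ ^ 2 * r ^ 2 / 4 + ‖c‖ ^ 2 * (r * a) ^ 2 / 4 + ‖c‖ ^ 3 * r ^ 3) := by
  have hB : ∀ᵐ z ∂μ, ‖z‖ ≤ r := hn.mono fun z hz => hz.le
  have i1 : Integrable (fun z : ℂ => Real.exp ((c * z).re)) μ := integrable_of_bdd hB (by fun_prop)
  have i2 : Integrable (fun z : ℂ => c * z) μ := integrable_of_bdd hB (by fun_prop)
  have i3 : Integrable (fun z : ℂ => c ^ 2 * z ^ 2) μ := integrable_of_bdd hB (by fun_prop)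
  have i2' : Integrable (fun z : ℂ => (c * z).re) μ := i2.re
  have i3' : Integrable (fun z : ℂ => (c ^ 2 * z ^ 2).re) μ := i3.re
  have e1 : ∫ z, (c * z).re ∂μ = c.re * (r * a) := by
    have h1 : ∫ z, (c * z).re ∂μ = (∫ z, c * z ∂μ).re := integral_re i2
    have h2 := hm 1 0
    simp only [pow_one, pow_zero, mul_one] at h2
    norm_num at h2
    rw [h1, integral_const_mul, h2]
    simp [Complex.mul_re]
  have e2 : ∫ z, (c ^ 2 * z ^ 2).re ∂μ = (c ^ 2).re * (r * a) ^ 2 := by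
    have h1 : ∫ z, (c ^ 2 * z ^ 2).re ∂μ = (∫ z, c ^ 2 * z ^ 2 ∂μ).re := integral_re i3
    have h2 := hm 2 0
    simp only [pow_zero, mul_one] at h2
    norm_num at h2
    rw [h1, integral_const_mul, h2]
    rw [show ((r:ℂ) * (a:ℂ)) ^ 2 = (((r * a) ^ 2 : ℝ) : ℂ) by push_cast; ring, Complex.re_mul_ofReal]
  have h3 : ∫ z, Real.exp ((c * z).re) ∂μ ≤
      ∫ z, (1 + (c * z).re + (‖c‖ ^ 2 * r ^ 2 + (c ^ 2 * z ^ 2).re) / 4 + ‖c‖ ^ 3 * r ^ 3) ∂μ := by
    refine integral_mono_ae i1 ?_ ?_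
    · exact (((integrable_const _).add i2').add (((integrable_const _).add i3').div_const _)).add
        (integrable_const _)
    · filter_upwards [hn] with z hz
      have h4 : |(c * z).re| ≤ ‖c‖ * r := by
        have := Complex.abs_re_le_norm (c * z)
        rwa [norm_mul, hz] at this
      have h5 := exp_cubic (h4.trans hc)
      have h6 : |(c * z).re| ^ 3 ≤ ‖c‖ ^ 3 * r ^ 3 := by
        rw [← mul_pow]
        exact pow_le_pow_left₀ (abs_nonneg _) h4 3
      have h7 : (c * z).re ^ 2 = (‖c‖ ^ 2 * r ^ 2 + (c ^ 2 * z ^ 2).re) / 2 := by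
        have h8 : ‖c * z‖ ^ 2 = ‖c‖ ^ 2 * r ^ 2 := by rw [norm_mul, hz, mul_pow]
        rw [← h8, ← mul_pow, Complex.sq_norm, Complex.normSq_apply, sq (c * z), Complex.mul_re (c * z)]
        ring
      have h9 : (c * z).re ^ 2 / 2 = (‖c‖ ^ 2 * r ^ 2 + (c ^ 2 * z ^ 2).re) / 4 := by rw [h7]; ring
      linarith
  have h4 : ∫ z, (1 + (c * z).re + (‖c‖ ^ 2 * r ^ 2 + (c ^ 2 * z ^ 2).re) / 4 + ‖c‖ ^ 3 * r ^ 3) ∂μ =
      1 + c.re * (r * a) + (‖c‖ ^ 2 * r ^ 2 + (c ^ 2).re * (r * a) ^ 2) / 4 + ‖c‖ ^ 3 * r ^ 3 := by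
    have j1 : Integrable (fun z : ℂ => 1 + (c * z).re) μ := (integrable_const _).add i2'
    have j2 : Integrable (fun z : ℂ => (‖c‖ ^ 2 * r ^ 2 + (c ^ 2 * z ^ 2).re) / 4) μ :=
      ((integrable_const _).add i3').div_const _
    have j3 : Integrable (fun z : ℂ => 1 + (c * z).re + (‖c‖ ^ 2 * r ^ 2 + (c ^ 2 * z ^ 2).re) / 4) μ :=
      j1.add j2
    rw [integral_add j3 (integrable_const _), integral_add j1 j2, integral_add (integrable_const _) i2',
      integral_div, integral_add (integrable_const _) i3', e1, e2]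
    simp
  have h5 : (c ^ 2).re ≤ ‖c‖ ^ 2 := by
    have := Complex.re_le_norm (c ^ 2)
    rwa [norm_pow] at this
  have h6 : (c ^ 2).re * (r * a) ^ 2 ≤ ‖c‖ ^ 2 * (r * a) ^ 2 :=
    mul_le_mul_of_nonneg_right h5 (by positivity)
  rw [h4] at h3
  refine h3.trans ?_
  have h7 := Real.add_one_le_exp (c.re * (r * a) + ‖c‖ ^ 2 * r ^ 2 / 4 + ‖c‖ ^ 2 * (r * a) ^ 2 / 4 +
    ‖c‖ ^ 3 * r ^ 3)
  linarith

end Pool.Agent.W184.NZ
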