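import Pool.Agent.H27.G.R_seed8.W184.NZ.Law1

set_option autoImplicit false

/-! The law of a sum over primes. -/

namespace Pool.Agent.W184.NZ

open Finset MeasureTheory Metric Real MonoidAlgebra

/-- the formal sum of `p^{-s}` -/
noncomputable def xI (I : Finset ℕ) : DA := ∑ p ∈ I, single (p, 1) 1

/-- its conjugate -/
noncomputable def yI (I : Finset ℕ) : DA := ∑ p ∈ I, single (1, p) 1

/-- `∑ 1/p` -/
noncomputable def vI (I : Finset ℕ) : ℝ := ∑ p ∈ I, 1 / (p : ℝ)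

/-- `∑ p^{-3/2}` -/
noncomputable def uI (I : Finset ℕ) : ℝ := ∑ p ∈ I, (p : ℝ) ^ (-(3 / 2 : ℝ))

lemma vI_nonneg (I : Finset ℕ) : 0 ≤ vI I := sum_nonneg fun _ _ => by positivity

lemma uI_nonneg (I : Finset ℕ) : 0 ≤ uI I := sum_nonneg fun _ _ => by positivity

lemma prime_mem_MI {I : Finset ℕ} {p : ℕ} (hp : p.Prime) (hI : p ∈ I) :
    ((p, 1) : ℕ × ℕ) ∈ MI I ∧ ((1, p) : ℕ × ℕ) ∈ MI I := by
  constructor
  · refine ⟨hp.ne_zero, one_ne_zero, fun q hq h => ?_⟩
    rcases h with h | h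
    · rw [(Nat.prime_dvd_prime_iff_eq hq hp).mp h]; exact hI
    · exact absurd (Nat.dvd_one.mp h) hq.ne_one
  · refine ⟨one_ne_zero, hp.ne_zero, fun q hq h => ?_⟩
    rcases h with h | h
    · exact absurd (Nat.dvd_one.mp h) hq.ne_one
    · rw [(Nat.prime_dvd_prime_iff_eq hq hp).mp h]; exact hI

lemma xI_mem {I : Finset ℕ} (h : ∀ p ∈ I, p.Prime) : xI I ∈ SA (MI I) :=
  Subalgebra.sum_mem _ fun p hp => single_mem_SA (prime_mem_MI (h p hp) hp).1 1

lemma yI_mem {I : Finset ℕ} (h : ∀ p ∈ I, p.Prime) : yI I ∈ SA (MI I) :=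
  Subalgebra.sum_mem _ fun p hp => single_mem_SA (prime_mem_MI (h p hp) hp).2 1

/-- the law of the sum over the primes of `I` -/
structure Law (w : ℕ × ℕ → ℝ) (κ : ℝ) (I : Finset ℕ) (ν : Measure ℂ) : Prop where
  prob : IsProbabilityMeasure ν
  bdd : ∃ B : ℝ, ∀ᵐ z ∂ν, ‖z‖ ≤ B
  mom : ∀ k l : ℕ, ∫ z, z ^ k * (starRingEnd ℂ z) ^ l ∂ν = ((lam w (xI I ^ k * yI I ^ l) : ℝ) : ℂ)
  expb : ∀ c : ℂ, ‖c‖ ≤ 12 → ∫ z, Real.exp ((c * z).re) ∂ν ≤
    Real.exp ((κ * c.re + ‖c‖ ^ 2 / 4) * vI I + (‖c‖ ^ 2 + ‖c‖ ^ 3) * uI I)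

/-- the local structure of a weight -/
structure GoodW (w : ℕ × ℕ → ℝ) (κ : ℝ) : Prop where
  k0 : 0 ≤ κ
  k1 : κ ≤ 1
  mul : ∀ {I J : Finset ℕ}, Disjoint I J → ∀ {f g : DA}, f ∈ SA (MI I) → g ∈ SA (MI J) →
    lam w (f * g) = lam w f * lam w g
  loc : ∀ p : ℕ, p.Prime → ∀ k l : ℕ,
    w (p ^ k, p ^ l) = (1 / (p:ℝ)) ^ (min k l) * (κ / p) ^ (max k l - min k l)
  one : w (1, 1) = 1

lemma goodW0 : GoodW w0 0 where
  k0 := le_rfl
  k1 := zero_le_one
  mul := fun h _ _ hf hg => lam0_mul h hf hg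
  loc p hp k l := by
    have hp1 := hp.one_lt
    unfold w0
    by_cases h : k = l
    · subst h
      simp
    · rw [if_neg (fun e => h (Nat.pow_right_injective hp1 e)), zero_div, zero_pow, mul_zero]
      rcases lt_or_gt_of_ne h with h | h
      · rw [max_eq_right h.le, min_eq_left h.le]; omega
      · rw [max_eq_left h.le, min_eq_right h.le]; omega
  one := by simp [w0]

lemma goodW1 : GoodW w1 1 where
  k0 := zero_le_one
  k1 := le_rfl
  mul := fun h _ _ hf hg => lam1_mul h hf hg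
  loc p hp k l := by
    have hp0 : (p:ℝ) ≠ 0 := by exact_mod_cast hp.ne_zero
    unfold w1
    simp only
    rw [← pow_add]
    rcases le_total k l with h | h
    · rw [max_eq_right h, min_eq_left h, Nat.gcd_eq_left (pow_dvd_pow p h), Nat.add_sub_cancel' h]
      push_cast
      field_simp
      rw [one_div, inv_pow, mul_inv_cancel₀ (pow_ne_zero _ hp0)]
    · rw [max_eq_left h, min_eq_right h, Nat.gcd_eq_right (pow_dvd_pow p h), Nat.add_sub_cancel' h]
      push_cast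
      field_simp
      rw [one_div, inv_pow, mul_inv_cancel₀ (pow_ne_zero _ hp0)]
  one := by simp [w1]

lemma lam_one {w : ℕ × ℕ → ℝ} {κ : ℝ} (h : GoodW w κ) : lam w 1 = 1 := by
  rw [MonoidAlgebra.one_def, lam_single, one_mul]
  exact h.one

lemma xp_pow (p k l : ℕ) : (single ((p, 1) : ℕ × ℕ) (1:ℝ)) ^ k * (single ((1, p) : ℕ × ℕ) (1:ℝ)) ^ l =
    (single (p ^ k, p ^ l) 1 : DA) := by
  rw [MonoidAlgebra.single_pow, MonoidAlgebra.single_pow, MonoidAlgebra.single_mul_single]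
  simp

/-- one prime -/
theorem law_prime {w : ℕ × ℕ → ℝ} {κ : ℝ} (hw : GoodW w κ) {p : ℕ} (hp : p.Prime) (hp1 : 144 ≤ p) :
    ∃ μ : Measure ℂ, IsProbabilityMeasure μ ∧ (∀ᵐ z ∂μ, ‖z‖ ≤ 1) ∧
      (∀ k l : ℕ, ∫ z, z ^ k * (starRingEnd ℂ z) ^ l ∂μ = ((w (p ^ k, p ^ l) : ℝ) : ℂ)) ∧
      ∀ c : ℂ, ‖c‖ ≤ 12 → ∫ z, Real.exp ((c * z).re) ∂μ ≤
        Real.exp ((κ * c.re + ‖c‖ ^ 2 / 4) * (1 / (p:ℝ)) + (‖c‖ ^ 2 + ‖c‖ ^ 3) * (p:ℝ) ^ (-(3 / 2 : ℝ))) := by
  have hpR : (144:ℝ) ≤ p := by exact_mod_cast hp1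
  have hp0 : (0:ℝ) < p := by linarith
  set r : ℝ := (p:ℝ) ^ (-(1 / 2 : ℝ)) with hr
  have hr0 : 0 < r := by positivity
  have hr2 : r ^ 2 = 1 / (p:ℝ) := by
    rw [hr, ← Real.rpow_natCast, ← Real.rpow_mul hp0.le]
    norm_num
    rw [Real.rpow_neg hp0.le, Real.rpow_one]
  have hr3 : r ^ 3 = (p:ℝ) ^ (-(3 / 2 : ℝ)) := by
    rw [hr, ← Real.rpow_natCast, ← Real.rpow_mul hp0.le]
    norm_num
  have hr12 : r ≤ 1 / 12 := by
    have h1 : r ^ 2 ≤ (1 / 12) ^ 2 := by
      rw [hr2, div_le_iff₀ hp0]; norm_num; linarith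
    exact (sq_le_sq₀ hr0.le (by norm_num)).mp h1
  have ha0 : 0 ≤ κ * r := mul_nonneg hw.k0 hr0.le
  have ha1 : κ * r < 1 := by nlinarith [hw.k1, hw.k0]
  have hra : r * (κ * r) = κ / p := by
    rw [show r * (κ * r) = κ * r ^ 2 by ring, hr2]; ring
  obtain ⟨μ, hμ, hn, hm⟩ := single_law hr0 ha0 ha1
  refine ⟨μ, hμ, hn.mono fun z hz => by rw [hz]; linarith, ?_, ?_⟩
  · intro k l
    rw [hm, hw.loc p hp, hra, hr2]
  · intro c hc
    have h1 := single_exp (μ := μ) hr0 ha0 hn hm (c := c) (by nlinarith [norm_nonneg c])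
    refine h1.trans (Real.exp_le_exp.mpr ?_)
    rw [hra, hr2, hr3]
    have h2 : ‖c‖ ^ 2 * (κ / p) ^ 2 / 4 ≤ ‖c‖ ^ 2 * (p:ℝ) ^ (-(3 / 2 : ℝ)) := by
      rw [← hr3, mul_div_assoc]
      refine mul_le_mul_of_nonneg_left ?_ (by positivity)
      rw [← hra]
      have h3 : κ ^ 2 ≤ 1 := pow_le_one₀ hw.k0 hw.k1
      have h4 : r ^ 4 ≤ r ^ 3 := pow_le_pow_of_le_one hr0.le (by linarith) (by norm_num)
      have h5 : (r * (κ * r)) ^ 2 = κ ^ 2 * r ^ 4 := by ring
      rw [h5]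
      nlinarith [mul_nonneg (sub_nonneg.mpr h3) (pow_nonneg hr0.le 4), pow_nonneg hr0.le 3]
    have e : (κ * c.re + ‖c‖ ^ 2 / 4) * (1 / (p:ℝ)) = c.re * (κ / p) + ‖c‖ ^ 2 * (1 / (p:ℝ)) / 4 := by ring
    rw [e]
    linarith [h2]

/-- the law of the sum of all primes of `I` -/
theorem law_exists {w : ℕ × ℕ → ℝ} {κ : ℝ} (hw : GoodW w κ) (I : Finset ℕ) :
    (∀ p ∈ I, p.Prime ∧ 144 ≤ p) → ∃ ν : Measure ℂ, Law w κ I ν := by
  induction I using Finset.induction_on with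
  | empty =>
    intro _
    refine ⟨Measure.dirac 0, inferInstance, ⟨0, ?_⟩, ?_, ?_⟩
    · rw [ae_dirac_iff (measurableSet_le measurable_norm measurable_const)]; simp
    · intro k l
      rw [integral_dirac]
      have h1 : xI ∅ = 0 := by simp [xI]
      have h2 : yI ∅ = 0 := by simp [yI]
      rw [h1, h2, map_zero]
      rcases Nat.eq_zero_or_pos k with hk | hk
      · rcases Nat.eq_zero_or_pos l with hl | hl
        · subst hk; subst hl
          simp [lam_one hw]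
        · rw [zero_pow hl.ne', zero_pow hl.ne']; simp
      · rw [zero_pow hk.ne', zero_pow hk.ne']; simp
    · intro c _
      rw [integral_dirac]
      simp [vI, uI]
  | insert p I hpI ih =>
    intro hI
    obtain ⟨ν, hν⟩ := ih fun q hq => hI q (mem_insert_of_mem hq)
    obtain ⟨hp, hp144⟩ := hI p (mem_insert_self _ _)
    obtain ⟨μ, hμ, hμ1, hμm, hμe⟩ := law_prime hw hp hp144
    have := hν.prob
    have := hμ
    obtain ⟨B, hB⟩ := hν.bdd
    have hIp : ∀ q ∈ I, q.Prime := fun q hq => (hI q (mem_insert_of_mem hq)).1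
    have hx : xI (insert p I) = single (p, 1) 1 + xI I := by
      unfold xI; rw [sum_insert hpI]
    have hy : yI (insert p I) = single (1, p) 1 + yI I := by
      unfold yI; rw [sum_insert hpI]
    have hv : vI (insert p I) = 1 / (p:ℝ) + vI I := by
      unfold vI; rw [sum_insert hpI]
    have hu : uI (insert p I) = (p:ℝ) ^ (-(3 / 2 : ℝ)) + uI I := by
      unfold uI; rw [sum_insert hpI]
    have hdisj : Disjoint {p} I := Finset.disjoint_singleton_left.mpr hpI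
    have hxp : single ((p, 1) : ℕ × ℕ) (1:ℝ) ∈ SA (MI {p}) :=
      single_mem_SA (prime_mem_MI hp (mem_singleton_self p)).1 1
    have hyp : single ((1, p) : ℕ × ℕ) (1:ℝ) ∈ SA (MI {p}) :=
      single_mem_SA (prime_mem_MI hp (mem_singleton_self p)).2 1
    have hadd : Measurable fun q : ℂ × ℂ => q.1 + q.2 := by fun_prop
    have ib : ∀ {f : ℂ → ℂ}, Continuous f → Integrable f ν := fun hf => integrable_of_bdd hB hf
    have ib' : ∀ {f : ℂ → ℂ}, Continuous f → Integrable f μ := fun hf => integrable_of_bdd hμ1 hf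
    refine ⟨(μ.prod ν).map fun q => q.1 + q.2, Measure.isProbabilityMeasure_map hadd.aemeasurable,
      ⟨1 + B, ?_⟩, ?_, ?_⟩
    · rw [ae_map_iff hadd.aemeasurable (measurableSet_le measurable_norm measurable_const)]
      have h1 : ∀ᵐ q ∂(μ.prod ν), ‖q.1‖ ≤ 1 := Measure.quasiMeasurePreserving_fst.ae hμ1
      have h2 : ∀ᵐ q ∂(μ.prod ν), ‖q.2‖ ≤ B := Measure.quasiMeasurePreserving_snd.ae hB
      filter_upwards [h1, h2] with q hq1 hq2
      exact (norm_add_le _ _).trans (by linarith)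
    · intro k l
      have hc : Continuous fun z : ℂ => z ^ k * (starRingEnd ℂ z) ^ l := by fun_prop
      rw [integral_map hadd.aemeasurable hc.aestronglyMeasurable, hx, hy]
      have e1 : ∀ q : ℂ × ℂ, (q.1 + q.2) ^ k * (starRingEnd ℂ (q.1 + q.2)) ^ l =
          ∑ i ∈ range (k + 1), ∑ j ∈ range (l + 1), ((k.choose i : ℂ) * (l.choose j : ℂ)) *
            ((q.1 ^ i * (starRingEnd ℂ q.1) ^ j) * (q.2 ^ (k - i) * (starRingEnd ℂ q.2) ^ (l - j))) := by
        intro q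
        rw [map_add, add_pow, add_pow, sum_mul_sum]
        refine sum_congr rfl fun i _ => sum_congr rfl fun j _ => ?_
        ring
      simp_rw [e1]
      have hi : ∀ i j : ℕ, Integrable (fun q : ℂ × ℂ => ((k.choose i : ℂ) * (l.choose j : ℂ)) *
            ((q.1 ^ i * (starRingEnd ℂ q.1) ^ j) * (q.2 ^ (k - i) * (starRingEnd ℂ q.2) ^ (l - j))))
            (μ.prod ν) := by
        intro i j
        refine Integrable.const_mul ?_ _
        exact Integrable.mul_prod (f := fun z : ℂ => z ^ i * (starRingEnd ℂ z) ^ j)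
          (g := fun z : ℂ => z ^ (k - i) * (starRingEnd ℂ z) ^ (l - j)) (ib' (by fun_prop)) (ib (by fun_prop))
      rw [integral_finsetSum _ fun i _ => integrable_finsetSum _ fun j _ => hi i j]
      have e2 : (single ((p, 1) : ℕ × ℕ) (1:ℝ) + xI I) ^ k * (single ((1, p) : ℕ × ℕ) (1:ℝ) + yI I) ^ l =
          ∑ i ∈ range (k + 1), ∑ j ∈ range (l + 1), ((k.choose i : ℝ) * (l.choose j : ℝ)) •
            ((single ((p, 1) : ℕ × ℕ) (1:ℝ) ^ i * single ((1, p) : ℕ × ℕ) (1:ℝ) ^ j) *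
              (xI I ^ (k - i) * yI I ^ (l - j))) := by
        rw [add_pow, add_pow, sum_mul_sum]
        refine sum_congr rfl fun i _ => sum_congr rfl fun j _ => ?_
        rw [Algebra.smul_def, map_mul, map_natCast, map_natCast]
        ring
      rw [e2, map_sum]
      push_cast
      refine sum_congr rfl fun i _ => ?_
      rw [integral_finsetSum _ fun j _ => hi i j, map_sum]
      push_cast
      refine sum_congr rfl fun j _ => ?_
      rw [integral_const_mul, integral_prod_mul (fun z : ℂ => z ^ i * (starRingEnd ℂ z) ^ j)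
        (fun z : ℂ => z ^ (k - i) * (starRingEnd ℂ z) ^ (l - j)), hμm, hν.mom, map_smul, smul_eq_mul,
        hw.mul hdisj (Subalgebra.mul_mem _ (Subalgebra.pow_mem _ hxp i) (Subalgebra.pow_mem _ hyp j))
          (Subalgebra.mul_mem _ (Subalgebra.pow_mem _ (xI_mem hIp) _) (Subalgebra.pow_mem _ (yI_mem hIp) _)),
        xp_pow, lam_single, one_mul]
      push_cast
      ring
    · intro c hc
      have hcc : Continuous fun z : ℂ => Real.exp ((c * z).re) := by fun_prop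
      rw [integral_map hadd.aemeasurable hcc.aestronglyMeasurable]
      have e1 : ∀ q : ℂ × ℂ, Real.exp ((c * (q.1 + q.2)).re) =
          Real.exp ((c * q.1).re) * Real.exp ((c * q.2).re) := by
        intro q
        rw [mul_add, Complex.add_re, Real.exp_add]
      simp_rw [e1]
      rw [integral_prod_mul (fun z : ℂ => Real.exp ((c * z).re)) (fun z : ℂ => Real.exp ((c * z).re))]
      calc (∫ z, Real.exp ((c * z).re) ∂μ) * (∫ z, Real.exp ((c * z).re) ∂ν) ≤ _ :=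
            mul_le_mul (hμe c hc) (hν.expb c hc) (integral_nonneg fun z => (Real.exp_pos _).le)
              (Real.exp_pos _).le
        _ = _ := by
            rw [← Real.exp_add, hv, hu]
            congr 1
            ring

end Pool.Agent.W184.NZ
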