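import Mathlib

set_option autoImplicit false

/-! Truncated exponentials: pointwise estimates. -/

namespace Pool.Agent.W184.NZ

open Finset Real

/-- the truncated exponential of `a z` -/
noncomputable def NK {B : Type*} [CommRing B] [Algebra ℝ B] (K : ℕ) (a : ℝ) (z : B) : B :=
  ∑ k ∈ range (K + 1), (a ^ k / (k.factorial : ℝ)) • z ^ k

lemma NK_map {B C : Type*} [CommRing B] [Algebra ℝ B] [CommRing C] [Algebra ℝ C] (φ : B →ₐ[ℝ] C)
    (K : ℕ) (a : ℝ) (z : B) : φ (NK K a z) = NK K a (φ z) := by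
  unfold NK
  rw [map_sum]
  refine sum_congr rfl fun k _ => ?_
  rw [map_smul, map_pow]

lemma NK_eq (K : ℕ) (a : ℝ) (z : ℂ) :
    NK K a z = ∑ m ∈ range (K + 1), ((a : ℂ) * z) ^ m / (m.factorial : ℂ) := by
  unfold NK
  refine sum_congr rfl fun k _ => ?_
  rw [Complex.real_smul, mul_pow]
  push_cast
  ring

lemma NK_conj (K : ℕ) (a : ℝ) (z : ℂ) : NK K a (starRingEnd ℂ z) = starRingEnd ℂ (NK K a z) := by
  rw [NK_eq, NK_eq, map_sum]
  refine sum_congr rfl fun k _ => ?_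
  rw [map_div₀, map_pow, map_mul, Complex.conj_ofReal]
  simp

lemma NK_sq (K : ℕ) (a : ℝ) (z : ℂ) : NK K a z * NK K a (starRingEnd ℂ z) = ((‖NK K a z‖ ^ 2 : ℝ) : ℂ) := by
  rw [NK_conj, Complex.mul_conj, Complex.normSq_eq_norm_sq]

lemma NK_norm_le (K : ℕ) {a : ℝ} (ha : |a| ≤ 1) (z : ℂ) : ‖NK K a z‖ ≤ Real.exp ‖z‖ := by
  rw [NK_eq]
  refine (norm_sum_le _ _).trans ?_
  refine le_trans ?_ (Real.sum_le_exp_of_nonneg (norm_nonneg z) (K + 1))
  refine sum_le_sum fun m _ => ?_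
  rw [norm_div, norm_pow, norm_mul, Complex.norm_real, Real.norm_eq_abs]
  simp only [Complex.norm_natCast]
  have h1 : |a| * ‖z‖ ≤ ‖z‖ := mul_le_of_le_one_left (norm_nonneg z) ha
  gcongr

/-- the truncation is harmless in the disc of radius `R` -/
def Cl (K : ℕ) (a : ℝ) (R : ℕ) : Prop :=
  ∀ z : ℂ, ‖z‖ ≤ R → ‖NK K a z - Complex.exp (a * z)‖ ≤ Real.exp (-(R:ℝ)) * ‖Complex.exp (a * z)‖

lemma cl_gen {K R : ℕ} {a ρ : ℝ} (hρ : |a| * R ≤ ρ) (h1 : ρ / ((K:ℝ) + 2) ≤ 1 / 2)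
    (h2 : ρ ^ (K + 1) / ((K + 1).factorial : ℝ) * 2 * Real.exp ρ ≤ Real.exp (-(R:ℝ))) : Cl K a R := by
  intro z hz
  have hw : ‖(a:ℂ) * z‖ ≤ ρ := by
    rw [norm_mul, Complex.norm_real, Real.norm_eq_abs]
    exact (mul_le_mul_of_nonneg_left hz (abs_nonneg a)).trans hρ
  have hρ0 : 0 ≤ ρ := (norm_nonneg _).trans hw
  have h3 : ‖(a:ℂ) * z‖ / ((K + 1 : ℕ).succ : ℝ) ≤ 1 / 2 := by
    refine le_trans ?_ h1
    push_cast
    rw [show ((K:ℝ) + 1 + 1) = (K:ℝ) + 2 by ring]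
    gcongr
  have h4 := Complex.exp_bound' h3
  have h5 : ‖NK K a z - Complex.exp (a * z)‖ ≤ ρ ^ (K + 1) / ((K + 1).factorial : ℝ) * 2 := by
    rw [norm_sub_rev, NK_eq]
    refine h4.trans ?_
    gcongr
  refine h5.trans ?_
  have h6 : Real.exp (-ρ) ≤ ‖Complex.exp (a * z)‖ := by
    rw [Complex.norm_exp]
    refine Real.exp_le_exp.mpr ?_
    have := Complex.abs_re_le_norm ((a:ℂ) * z)
    have := (abs_le.mp (this.trans hw)).1
    linarith
  calc ρ ^ (K + 1) / ((K + 1).factorial : ℝ) * 2 =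
      ρ ^ (K + 1) / ((K + 1).factorial : ℝ) * 2 * Real.exp ρ * Real.exp (-ρ) := by
        rw [mul_assoc _ (Real.exp ρ), ← Real.exp_add]; simp
    _ ≤ Real.exp (-(R:ℝ)) * Real.exp (-ρ) := mul_le_mul_of_nonneg_right h2 (Real.exp_pos _).le
    _ ≤ _ := mul_le_mul_of_nonneg_left h6 (Real.exp_pos _).le

lemma cl_ten {R : ℕ} (hR : 1 ≤ R) {a : ℝ} (ha : |a| ≤ 1) : Cl (10 * R) a R := by
  have hR' : (1:ℝ) ≤ R := by exact_mod_cast hR
  refine cl_gen (ρ := R) (mul_le_of_le_one_left (by positivity) ha) ?_ ?_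
  · rw [div_le_div_iff₀ (by positivity) (by norm_num)]; push_cast; linarith
  · have h1 : (10 * (R:ℝ)) ^ (10 * R + 1) / ((10 * R + 1).factorial : ℝ) ≤ Real.exp (10 * R) :=
      Real.pow_div_factorial_le_exp _ (by positivity) _
    have h2 : (R:ℝ) ^ (10 * R + 1) / ((10 * R + 1).factorial : ℝ) =
        (10 * (R:ℝ)) ^ (10 * R + 1) / ((10 * R + 1).factorial : ℝ) / 10 ^ (10 * R + 1) := by
      rw [mul_pow]; field_simp
    have h3 : Real.exp ((2:ℝ) * (10 * R)) ≤ 10 ^ (10 * R) := by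
      have h4 : Real.exp 2 ≤ 10 := by
        have := Real.exp_one_lt_d9
        have e : Real.exp 2 = Real.exp 1 ^ 2 := by rw [← Real.exp_nat_mul]; norm_num
        rw [e]; nlinarith [Real.exp_pos 1]
      calc Real.exp ((2:ℝ) * (10 * R)) = (Real.exp 2) ^ (10 * R) := by
            rw [← Real.exp_nat_mul]; congr 1; push_cast; ring
        _ ≤ 10 ^ (10 * R) := pow_le_pow_left₀ (Real.exp_pos 2).le h4 _
    have h5 : (0:ℝ) < 10 ^ (10 * R) := by positivity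
    rw [h2]
    calc (10 * (R:ℝ)) ^ (10 * R + 1) / ((10 * R + 1).factorial : ℝ) / 10 ^ (10 * R + 1) * 2 * Real.exp R ≤
        Real.exp (10 * R) / 10 ^ (10 * R + 1) * 2 * Real.exp R := by gcongr
      _ = Real.exp (11 * R) / 10 ^ (10 * R) * (1 / 5) := by
          rw [show (11:ℝ) * R = 10 * R + R by ring, Real.exp_add, pow_succ]; field_simp; ring
      _ ≤ Real.exp (11 * R) / Real.exp ((2:ℝ) * (10 * R)) * 1 := by
          gcongr
          norm_num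
      _ = Real.exp (-(9 * (R:ℝ))) := by
          rw [mul_one, ← Real.exp_sub]; congr 1; ring
      _ ≤ Real.exp (-(R:ℝ)) := Real.exp_le_exp.mpr (by linarith)

lemma cl_small {R : ℕ} {a : ℝ} (ha : |a| ≤ 1 / 16) : Cl R a R := by
  have hR' : (0:ℝ) ≤ R := by positivity
  refine cl_gen (ρ := R / 16) ?_ ?_ ?_
  · have := mul_le_mul_of_nonneg_right ha hR'; linarith
  · rw [div_le_div_iff₀ (by positivity) (by norm_num)]; linarith
  · have h1 : (R:ℝ) ^ (R + 1) / ((R + 1).factorial : ℝ) ≤ Real.exp R :=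
      Real.pow_div_factorial_le_exp _ (by positivity) _
    have h2 : ((R:ℝ) / 16) ^ (R + 1) / ((R + 1).factorial : ℝ) =
        (R:ℝ) ^ (R + 1) / ((R + 1).factorial : ℝ) / 16 ^ (R + 1) := by
      rw [div_pow]; field_simp
    have h3 : Real.exp ((5 / 2:ℝ) * R) ≤ 16 ^ R := by
      have h4 : Real.exp (5 / 2) ≤ 16 := by
        have := Real.exp_one_lt_d9
        have e : Real.exp (5 / 2) ≤ Real.exp 1 ^ 2 * Real.exp (1 / 2) := by
          rw [← Real.exp_nat_mul, ← Real.exp_add]; norm_num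
        have e2 : Real.exp (1 / 2) ^ 2 = Real.exp 1 := by rw [← Real.exp_nat_mul]; norm_num
        have e3 : Real.exp (1 / 2) ≤ 2 := by nlinarith [Real.exp_pos (1/2)]
        nlinarith [Real.exp_pos 1, Real.exp_pos (1/2)]
      calc Real.exp ((5 / 2:ℝ) * R) = (Real.exp (5 / 2)) ^ R := by
            rw [← Real.exp_nat_mul]; congr 1; ring
        _ ≤ 16 ^ R := pow_le_pow_left₀ (Real.exp_pos _).le h4 _
    have h5 : (0:ℝ) < 16 ^ R := by positivity
    rw [h2]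
    calc (R:ℝ) ^ (R + 1) / ((R + 1).factorial : ℝ) / 16 ^ (R + 1) * 2 * Real.exp (R / 16) ≤
        Real.exp R / 16 ^ (R + 1) * 2 * Real.exp (R / 16) := by gcongr
      _ = Real.exp (17 / 16 * R) / 16 ^ R * (1 / 8) := by
          rw [show (17 / 16:ℝ) * R = R + R / 16 by ring, Real.exp_add, pow_succ]; field_simp; ring
      _ ≤ Real.exp (17 / 16 * R) / Real.exp ((5 / 2:ℝ) * R) * 1 := by
          gcongr
          norm_num
      _ = Real.exp (-(23 / 16 * (R:ℝ))) := by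
          rw [mul_one, ← Real.exp_sub]; congr 1; ring
      _ ≤ Real.exp (-(R:ℝ)) := Real.exp_le_exp.mpr (by linarith)

section

variable {K R : ℕ} {a : ℝ}

lemma norm_exp_sq (a : ℝ) (z : ℂ) : ‖Complex.exp (a * z)‖ ^ 2 = Real.exp (2 * a * z.re) := by
  rw [Complex.norm_exp, ← Real.exp_nat_mul]
  congr 1
  simp; ring

lemma NK_le_of_cl (h : Cl K a R) {z : ℂ} (hz : ‖z‖ ≤ R) :
    ‖NK K a z‖ ≤ (1 + Real.exp (-(R:ℝ))) * ‖Complex.exp (a * z)‖ := by
  have h1 := h z hz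
  have h2 := norm_sub_norm_le (NK K a z) (Complex.exp (a * z))
  linarith

lemma NK_ge_of_cl (h : Cl K a R) {z : ℂ} (hz : ‖z‖ ≤ R) :
    (1 - Real.exp (-(R:ℝ))) * ‖Complex.exp (a * z)‖ ≤ ‖NK K a z‖ := by
  have h1 := h z hz
  have h2 := norm_sub_norm_le (Complex.exp (a * z)) (NK K a z)
  rw [norm_sub_rev] at h1
  linarith

lemma far_le {z : ℂ} (hz : (R:ℝ) < ‖z‖) : Real.exp (2 * ‖z‖) ≤ Real.exp (-(2 * (R:ℝ))) * Real.exp (4 * ‖z‖) := by
  rw [← Real.exp_add]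
  exact Real.exp_le_exp.mpr (by linarith)

lemma NK_sq_le (h : Cl K a R) (ha : |a| ≤ 1) (z : ℂ) :
    ‖NK K a z‖ ^ 2 ≤ (1 + Real.exp (-(R:ℝ))) ^ 2 * Real.exp (2 * a * z.re) +
      Real.exp (-(2 * (R:ℝ))) * Real.exp (4 * ‖z‖) := by
  rcases le_or_gt ‖z‖ (R:ℝ) with hz | hz
  · have h1 := pow_le_pow_left₀ (norm_nonneg _) (NK_le_of_cl h hz) 2
    rw [mul_pow, norm_exp_sq] at h1
    have : 0 ≤ Real.exp (-(2 * (R:ℝ))) * Real.exp (4 * ‖z‖) := by positivity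
    linarith
  · have h1 := pow_le_pow_left₀ (norm_nonneg _) (NK_norm_le K ha z) 2
    rw [← Real.exp_nat_mul] at h1
    have h2 := far_le hz
    have h3 : 0 ≤ (1 + Real.exp (-(R:ℝ))) ^ 2 * Real.exp (2 * a * z.re) := by positivity
    push_cast at h1
    linarith

lemma NK_sq_ge (h : Cl K a R) (ha : |a| ≤ 1) (z : ℂ) :
    (1 - Real.exp (-(R:ℝ))) ^ 2 * (Real.exp (2 * a * z.re) -
      Real.exp (-(2 * (R:ℝ))) * Real.exp (4 * ‖z‖)) ≤ ‖NK K a z‖ ^ 2 := by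
  have hd : 0 ≤ 1 - Real.exp (-(R:ℝ)) := by
    have : Real.exp (-(R:ℝ)) ≤ 1 := Real.exp_le_one_iff.mpr (by simp)
    linarith
  rcases le_or_gt ‖z‖ (R:ℝ) with hz | hz
  · have h1 := pow_le_pow_left₀ (mul_nonneg hd (norm_nonneg _)) (NK_ge_of_cl h hz) 2
    rw [mul_pow, norm_exp_sq] at h1
    have h2 : 0 ≤ (1 - Real.exp (-(R:ℝ))) ^ 2 * (Real.exp (-(2 * (R:ℝ))) * Real.exp (4 * ‖z‖)) := by
      positivity
    linarith
  · have h2 := far_le hz
    have h3 : Real.exp (2 * a * z.re) ≤ Real.exp (2 * ‖z‖) := by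
      refine Real.exp_le_exp.mpr ?_
      have h4 := Complex.abs_re_le_norm z
      have h5 : |a * z.re| ≤ ‖z‖ := by
        rw [abs_mul]
        calc |a| * |z.re| ≤ 1 * ‖z‖ := mul_le_mul ha h4 (abs_nonneg _) zero_le_one
          _ = ‖z‖ := one_mul _
      have := (abs_le.mp h5).2
      linarith
    have h6 : (1 - Real.exp (-(R:ℝ))) ^ 2 * (Real.exp (2 * a * z.re) -
      Real.exp (-(2 * (R:ℝ))) * Real.exp (4 * ‖z‖)) ≤ 0 :=
      mul_nonpos_of_nonneg_of_nonpos (by positivity) (by linarith)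
    exact h6.trans (by positivity)

lemma ball_pow_le (hR : 1 ≤ R) (z : ℂ) :
    (‖z‖ / R) ^ (2 * R) ≤ Real.exp (-(2 * (R:ℝ))) * Real.exp (4 * ‖z‖) := by
  have hR' : (0:ℝ) < R := by exact_mod_cast hR
  have h1 : ‖z‖ / R ≤ Real.exp (‖z‖ / R - 1) := by
    have := Real.add_one_le_exp (‖z‖ / R - 1)
    linarith
  calc (‖z‖ / R) ^ (2 * R) ≤ (Real.exp (‖z‖ / R - 1)) ^ (2 * R) :=
        pow_le_pow_left₀ (by positivity) h1 _
    _ = Real.exp (2 * ‖z‖ - 2 * R) := by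
        rw [← Real.exp_nat_mul]; congr 1; push_cast; field_simp
    _ ≤ Real.exp (-(2 * (R:ℝ)) + 4 * ‖z‖) := Real.exp_le_exp.mpr (by linarith [norm_nonneg z])
    _ = _ := Real.exp_add _ _

/-- the sum of the squares -/
noncomputable def gf (K : ℕ) (a : ℝ) (R : ℕ) (z : ℂ) : ℝ := ‖NK K a z‖ ^ 2 + (‖z‖ / R) ^ (2 * R)

lemma gf_nonneg (K : ℕ) (a : ℝ) (R : ℕ) (z : ℂ) : 0 ≤ gf K a R z := by unfold gf; positivity

lemma gf_pos (hR : 1 ≤ R) (h : Cl K a R) (z : ℂ) : 0 < gf K a R z := by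
  have hR' : (0:ℝ) < R := by exact_mod_cast hR
  rcases le_or_gt ‖z‖ (R:ℝ) with hz | hz
  · have h1 := NK_ge_of_cl h hz
    have h2 : Real.exp (-(R:ℝ)) < 1 := by
      have := Real.exp_lt_exp.mpr (show -(R:ℝ) < 0 by linarith)
      rwa [Real.exp_zero] at this
    have h3 : 0 < (1 - Real.exp (-(R:ℝ))) * ‖Complex.exp (a * z)‖ := by
      refine mul_pos (by linarith) ?_
      rw [Complex.norm_exp]; exact Real.exp_pos _
    have h4 : 0 < ‖NK K a z‖ := h3.trans_le h1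
    unfold gf
    positivity
  · have : 0 < ‖z‖ := hR'.trans hz
    unfold gf
    positivity

/-- the pointwise inequality -/
lemma star {K' : ℕ} {α : ℝ} (hα : 0 ≤ α) (hα1 : α ≤ 1) (hR : 1 ≤ R) (h : Cl K α R)
    (h' : Cl K' (-(1 - α)) R) (z : ℂ) :
    (1 - Real.exp (-(R:ℝ))) ^ 2 ≤ gf K' (-(1 - α)) R z ^ α * gf K α R z ^ (1 - α) := by
  have hR' : (0:ℝ) < R := by exact_mod_cast hR
  set d := 1 - Real.exp (-(R:ℝ)) with hd
  have hd0 : 0 ≤ d := by
    have : Real.exp (-(R:ℝ)) ≤ 1 := Real.exp_le_one_iff.mpr (by simp)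
    linarith
  have hd1 : d ≤ 1 := by
    have := Real.exp_pos (-(R:ℝ))
    linarith
  have hα' : 0 ≤ 1 - α := by linarith
  rcases le_or_gt ‖z‖ (R:ℝ) with hz | hz
  · have h1 : d ^ 2 * Real.exp (2 * α * z.re) ≤ gf K α R z := by
      have h3 := pow_le_pow_left₀ (mul_nonneg hd0 (norm_nonneg _)) (NK_ge_of_cl h hz) 2
      rw [mul_pow, norm_exp_sq] at h3
      have h4 : 0 ≤ (‖z‖ / R) ^ (2 * R) := by positivity
      unfold gf; linarith
    have h2 : d ^ 2 * Real.exp (2 * (-(1 - α)) * z.re) ≤ gf K' (-(1 - α)) R z := by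
      have h3 := pow_le_pow_left₀ (mul_nonneg hd0 (norm_nonneg _)) (NK_ge_of_cl h' hz) 2
      rw [mul_pow, norm_exp_sq] at h3
      have h4 : 0 ≤ (‖z‖ / R) ^ (2 * R) := by positivity
      unfold gf; linarith
    have h5 : (d ^ 2) ^ α * (d ^ 2) ^ (1 - α) = d ^ 2 := by
      rw [← Real.rpow_add_of_nonneg (by positivity) hα hα']; simp
    calc d ^ 2 = ((d ^ 2) ^ α * (d ^ 2) ^ (1 - α)) *
          (Real.exp (2 * (-(1 - α)) * z.re) ^ α * Real.exp (2 * α * z.re) ^ (1 - α)) := by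
          rw [h5, ← Real.exp_mul, ← Real.exp_mul, ← Real.exp_add,
            show 2 * (-(1 - α)) * z.re * α + 2 * α * z.re * (1 - α) = 0 by ring, Real.exp_zero, mul_one]
      _ = (d ^ 2 * Real.exp (2 * (-(1 - α)) * z.re)) ^ α * (d ^ 2 * Real.exp (2 * α * z.re)) ^ (1 - α) := by
          rw [Real.mul_rpow (by positivity) (by positivity), Real.mul_rpow (by positivity) (by positivity)]
          ring
      _ ≤ _ := by
          gcongr
          exact Real.rpow_nonneg (gf_nonneg _ _ _ _) _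
  · have hq : 1 ≤ (‖z‖ / R) ^ (2 * R) := one_le_pow₀ (by rw [one_le_div hR']; exact hz.le)
    have h1 : 1 ≤ gf K α R z := by
      unfold gf; nlinarith [sq_nonneg ‖NK K α z‖]
    have h2 : 1 ≤ gf K' (-(1 - α)) R z := by
      unfold gf; nlinarith [sq_nonneg ‖NK K' (-(1 - α)) z‖]
    calc d ^ 2 ≤ 1 := pow_le_one₀ hd0 hd1
      _ = 1 * 1 := by ring
      _ ≤ _ := mul_le_mul (Real.one_le_rpow h2 hα) (Real.one_le_rpow h1 hα') zero_le_one (by positivity)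

end

end Pool.Agent.W184.NZ
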