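import Pool.Agent.H27.G.R_seed8.W184.NZ.Law2
import Pool.Agent.H27.G.R_seed8.W184.NZ.Pt

set_option autoImplicit false

/-! Local estimates. -/

namespace Pool.Agent.W184.NZ

open Finset MeasureTheory Real MonoidAlgebra

/-- the element of the algebra with the values `gf` -/
noncomputable def gE (K : ℕ) (a : ℝ) (R : ℕ) (I : Finset ℕ) : DA :=
  NK K a (xI I) * NK K a (yI I) + ((1 / (R:ℝ)) ^ (2 * R)) • (xI I ^ R * yI I ^ R)

section

variable {w : ℕ × ℕ → ℝ} {κ : ℝ} {I : Finset ℕ} {ν : Measure ℂ}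

lemma law_NK (h : Law w κ I ν) (K K' : ℕ) (a a' : ℝ) :
    ((lam w (NK K a (xI I) * NK K' a' (yI I)) : ℝ) : ℂ) =
      ∫ z, NK K a z * NK K' a' (starRingEnd ℂ z) ∂ν := by
  have := h.prob
  obtain ⟨B, hB⟩ := h.bdd
  have hi : ∀ k l : ℕ, Integrable (fun z : ℂ => ((a ^ k / (k.factorial : ℝ) * (a' ^ l / (l.factorial : ℝ)) : ℝ) : ℂ) *
      (z ^ k * (starRingEnd ℂ z) ^ l)) ν := fun k l => integrable_of_bdd hB (by fun_prop)
  have e1 : NK K a (xI I) * NK K' a' (yI I) = ∑ k ∈ range (K + 1), ∑ l ∈ range (K' + 1),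
      (a ^ k / (k.factorial : ℝ) * (a' ^ l / (l.factorial : ℝ))) • (xI I ^ k * yI I ^ l) := by
    unfold NK
    rw [sum_mul_sum]
    refine sum_congr rfl fun k _ => sum_congr rfl fun l _ => ?_
    rw [smul_mul_smul_comm]
  have e2 : ∀ z : ℂ, NK K a z * NK K' a' (starRingEnd ℂ z) = ∑ k ∈ range (K + 1), ∑ l ∈ range (K' + 1),
      ((a ^ k / (k.factorial : ℝ) * (a' ^ l / (l.factorial : ℝ)) : ℝ) : ℂ) *
      (z ^ k * (starRingEnd ℂ z) ^ l) := by
    intro z
    unfold NK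
    rw [sum_mul_sum]
    refine sum_congr rfl fun k _ => sum_congr rfl fun l _ => ?_
    rw [smul_mul_smul_comm, Complex.real_smul]
  simp_rw [e2]
  rw [e1, map_sum, integral_finsetSum _ fun k _ => integrable_finsetSum _ fun l _ => hi k l]
  push_cast
  refine sum_congr rfl fun k _ => ?_
  have hi' := hi k
  push_cast at hi'
  rw [map_sum, integral_finsetSum _ fun l _ => hi' l]
  push_cast
  refine sum_congr rfl fun l _ => ?_
  rw [integral_const_mul, h.mom, map_smul, smul_eq_mul]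
  push_cast
  ring

lemma law_ball (h : Law w κ I ν) (R : ℕ) :
    lam w (((1 / (R:ℝ)) ^ (2 * R)) • (xI I ^ R * yI I ^ R)) = ∫ z, (‖z‖ / R) ^ (2 * R) ∂ν := by
  have h1 := h.mom R R
  have e1 : ∀ z : ℂ, z ^ R * (starRingEnd ℂ z) ^ R = ((‖z‖ ^ (2 * R) : ℝ) : ℂ) := by
    intro z
    rw [← mul_pow, Complex.mul_conj, Complex.normSq_eq_norm_sq, ← Complex.ofReal_pow, ← pow_mul]
  simp_rw [e1] at h1
  rw [integral_complex_ofReal] at h1
  have h2 := Complex.ofReal_injective h1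
  rw [map_smul, smul_eq_mul, ← h2, ← integral_const_mul]
  refine integral_congr_ae (Filter.Eventually.of_forall fun z => ?_)
  simp only
  rw [div_pow, div_pow, one_pow]; ring

lemma lam_gE (h : Law w κ I ν) (K : ℕ) (a : ℝ) (R : ℕ) : lam w (gE K a R I) = ∫ z, gf K a R z ∂ν := by
  have := h.prob
  obtain ⟨B, hB⟩ := h.bdd
  have h1 := law_NK h K K a a
  simp_rw [NK_sq] at h1
  rw [integral_complex_ofReal] at h1
  have h2 := Complex.ofReal_injective h1
  unfold gE
  rw [map_add, h2, law_ball h R, ← integral_add]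
  · rfl
  · refine integrable_of_bdd hB ?_
    unfold NK; fun_prop
  · exact integrable_of_bdd hB (by fun_prop)

/-- bound for the exponential moment -/
noncomputable def CC (v u : ℝ) : ℝ := 4 * Real.exp (12 * v + 220 * u)

lemma CC_pos (v u : ℝ) : 0 < CC v u := by unfold CC; positivity

lemma norm_exp_le (z : ℂ) : Real.exp (4 * ‖z‖) ≤
    Real.exp ((((4:ℂ) - 4 * Complex.I) * z).re) + Real.exp ((((4:ℂ) + 4 * Complex.I) * z).re) +
    Real.exp ((((-4:ℂ) - 4 * Complex.I) * z).re) + Real.exp ((((-4:ℂ) + 4 * Complex.I) * z).re) := by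
  have h0 := Complex.norm_le_abs_re_add_abs_im z
  have e1 : (((4:ℂ) - 4 * Complex.I) * z).re = 4 * z.re + 4 * z.im := by simp
  have e2 : (((4:ℂ) + 4 * Complex.I) * z).re = 4 * z.re - 4 * z.im := by simp
  have e3 : (((-4:ℂ) - 4 * Complex.I) * z).re = -4 * z.re + 4 * z.im := by simp
  have e4 : (((-4:ℂ) + 4 * Complex.I) * z).re = -4 * z.re - 4 * z.im := by simp
  rw [e1, e2, e3, e4]
  have p1 := Real.exp_pos (4 * z.re + 4 * z.im)
  have p2 := Real.exp_pos (4 * z.re - 4 * z.im)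
  have p3 := Real.exp_pos (-4 * z.re + 4 * z.im)
  have p4 := Real.exp_pos (-4 * z.re - 4 * z.im)
  have h1 : Real.exp (4 * ‖z‖) ≤ Real.exp (4 * |z.re| + 4 * |z.im|) := Real.exp_le_exp.mpr (by linarith)
  refine h1.trans ?_
  rcases abs_cases z.re with ⟨ha, _⟩ | ⟨ha, _⟩ <;> rcases abs_cases z.im with ⟨hb, _⟩ | ⟨hb, _⟩ <;>
    rw [ha, hb]
  · linarith
  · rw [show 4 * z.re + 4 * -z.im = 4 * z.re - 4 * z.im by ring]; linarith
  · rw [show 4 * -z.re + 4 * z.im = -4 * z.re + 4 * z.im by ring]; linarith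
  · rw [show 4 * -z.re + 4 * -z.im = -4 * z.re - 4 * z.im by ring]; linarith

lemma law_exp4 (hw : GoodW w κ) (h : Law w κ I ν) : ∫ z, Real.exp (4 * ‖z‖) ∂ν ≤ CC (vI I) (uI I) := by
  have := h.prob
  obtain ⟨B, hB⟩ := h.bdd
  have hi : ∀ c : ℂ, Integrable (fun z : ℂ => Real.exp ((c * z).re)) ν :=
    fun c => integrable_of_bdd hB (by fun_prop)
  have hv := vI_nonneg I
  have hu := uI_nonneg I
  have key : ∀ c : ℂ, ‖c‖ ^ 2 = 32 → c.re ≤ 4 → ∫ z, Real.exp ((c * z).re) ∂ν ≤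
      Real.exp (12 * vI I + 220 * uI I) := by
    intro c hc hre
    have h6 : ‖c‖ ≤ 6 := by nlinarith [norm_nonneg c]
    refine (h.expb c (by linarith)).trans (Real.exp_le_exp.mpr ?_)
    have h1 : (κ * c.re + ‖c‖ ^ 2 / 4) ≤ 12 := by
      rw [hc]; nlinarith [hw.k0, hw.k1]
    have h2 : ‖c‖ ^ 2 + ‖c‖ ^ 3 ≤ 220 := by
      have h3 : ‖c‖ ≤ 5.7 := by nlinarith [norm_nonneg c]
      have : ‖c‖ ^ 3 = 32 * ‖c‖ := by rw [pow_succ, hc]
      rw [this, hc]; linarith
    have h3 := mul_le_mul_of_nonneg_right h1 hv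
    have h4 := mul_le_mul_of_nonneg_right h2 hu
    linarith
  have nrm : ∀ x y : ℝ, ‖((x:ℂ) + y * Complex.I)‖ ^ 2 = x ^ 2 + y ^ 2 := by
    intro x y
    rw [Complex.sq_norm, Complex.normSq_add_mul_I]
  have k1 := key ((4:ℂ) - 4 * Complex.I) (by
    have := nrm 4 (-4); push_cast at this; rw [show (4:ℂ) - 4 * Complex.I = 4 + -4 * Complex.I by ring, this]; norm_num) (by simp)
  have k2 := key ((4:ℂ) + 4 * Complex.I) (by
    have := nrm 4 4; push_cast at this; rw [this]; norm_num) (by simp)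
  have k3 := key ((-4:ℂ) - 4 * Complex.I) (by
    have := nrm (-4) (-4); push_cast at this; rw [show (-4:ℂ) - 4 * Complex.I = -4 + -4 * Complex.I by ring, this]; norm_num) (by simp)
  have k4 := key ((-4:ℂ) + 4 * Complex.I) (by
    have := nrm (-4) 4; push_cast at this; rw [this]; norm_num) (by simp)
  have h1 : ∫ z, Real.exp (4 * ‖z‖) ∂ν ≤
      ∫ z, (Real.exp ((((4:ℂ) - 4 * Complex.I) * z).re) + Real.exp ((((4:ℂ) + 4 * Complex.I) * z).re) +
    Real.exp ((((-4:ℂ) - 4 * Complex.I) * z).re) + Real.exp ((((-4:ℂ) + 4 * Complex.I) * z).re)) ∂ν := by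
    refine integral_mono (integrable_of_bdd hB (by fun_prop)) ?_ norm_exp_le
    exact (((hi _).add (hi _)).add (hi _)).add (hi _)
  have j1 : Integrable (fun z : ℂ => Real.exp ((((4:ℂ) - 4 * Complex.I) * z).re) +
      Real.exp ((((4:ℂ) + 4 * Complex.I) * z).re)) ν := (hi _).add (hi _)
  have j2 : Integrable (fun z : ℂ => Real.exp ((((4:ℂ) - 4 * Complex.I) * z).re) +
      Real.exp ((((4:ℂ) + 4 * Complex.I) * z).re) + Real.exp ((((-4:ℂ) - 4 * Complex.I) * z).re)) ν :=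
    j1.add (hi _)
  rw [integral_add j2 (hi _), integral_add j1 (hi _), integral_add (hi _) (hi _)] at h1
  unfold CC
  linarith

lemma lam_xI (hw : GoodW w κ) (hI : ∀ p ∈ I, p.Prime) : lam w (xI I) = κ * vI I := by
  unfold xI vI
  rw [map_sum, mul_sum]
  refine sum_congr rfl fun p hp => ?_
  rw [lam_single, one_mul]
  have := hw.loc p (hI p hp) 1 0
  simp only [pow_one, pow_zero] at this
  rw [this]
  norm_num
  ring

/-- upper bound for the local factor -/
theorem loc_upper (hw : GoodW w κ) (h : Law w κ I ν) {K R : ℕ} {a : ℝ} (ha : |a| ≤ 1) (hR : 1 ≤ R)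
    (hcl : Cl K a R) :
    lam w (gE K a R I) ≤ (1 + Real.exp (-(R:ℝ))) ^ 2 * Real.exp ((2 * κ * a + a ^ 2) * vI I + 12 * a ^ 2 * uI I) +
      2 * Real.exp (-(2 * (R:ℝ))) * CC (vI I) (uI I) := by
  have := h.prob
  obtain ⟨B, hB⟩ := h.bdd
  have hu := uI_nonneg I
  have h4 := law_exp4 hw h
  have hc : ‖((2 * a : ℝ) : ℂ)‖ = 2 * |a| := by
    rw [Complex.norm_real, Real.norm_eq_abs, abs_mul]; norm_num
  have h5 := h.expb ((2 * a : ℝ) : ℂ) (by rw [hc]; linarith)
  have e1 : ∀ z : ℂ, (((2 * a : ℝ) : ℂ) * z).re = 2 * a * z.re := fun z => Complex.re_ofReal_mul _ _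
  simp_rw [e1] at h5
  rw [hc, Complex.ofReal_re] at h5
  have h6 : ∫ z : ℂ, Real.exp (2 * a * z.re) ∂ν ≤ Real.exp ((2 * κ * a + a ^ 2) * vI I + 12 * a ^ 2 * uI I) := by
    refine h5.trans (Real.exp_le_exp.mpr ?_)
    have h7 : (2 * |a|) ^ 2 = 4 * a ^ 2 := by rw [mul_pow, sq_abs]; ring
    have h8 : (2 * |a|) ^ 3 ≤ 8 * a ^ 2 := by
      have : (2 * |a|) ^ 3 = 8 * (|a| ^ 2 * |a|) := by ring
      rw [this, sq_abs]; nlinarith [sq_nonneg a]
    rw [h7]
    have h9 := mul_le_mul_of_nonneg_right (add_le_add_right h8 (4 * a ^ 2)) hu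
    have e : (κ * (2 * a) + 4 * a ^ 2 / 4) * vI I = (2 * κ * a + a ^ 2) * vI I := by ring
    rw [e]
    linarith
  rw [lam_gE h]
  have i1 : Integrable (fun z : ℂ => Real.exp (2 * a * z.re)) ν := integrable_of_bdd hB (by fun_prop)
  have i2 : Integrable (fun z : ℂ => Real.exp (4 * ‖z‖)) ν := integrable_of_bdd hB (by fun_prop)
  have h7 : ∫ z, gf K a R z ∂ν ≤ ∫ z : ℂ, ((1 + Real.exp (-(R:ℝ))) ^ 2 * Real.exp (2 * a * z.re) +
      2 * Real.exp (-(2 * (R:ℝ))) * Real.exp (4 * ‖z‖)) ∂ν := by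
    refine integral_mono (integrable_of_bdd hB ?_) ((i1.const_mul _).add (i2.const_mul _)) fun z => ?_
    · unfold gf NK; fun_prop
    · have a1 := NK_sq_le hcl ha z
      have a2 := ball_pow_le hR z
      unfold gf
      linarith
  rw [integral_add (i1.const_mul _) (i2.const_mul _), integral_const_mul, integral_const_mul] at h7
  refine h7.trans (add_le_add ?_ ?_)
  · exact mul_le_mul_of_nonneg_left h6 (by positivity)
  · exact mul_le_mul_of_nonneg_left h4 (by positivity)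

/-- lower bound for the local factor -/
theorem loc_lower (hw : GoodW w κ) (h : Law w κ I ν) (hI : ∀ p ∈ I, p.Prime) {K R : ℕ} {a : ℝ}
    (ha : |a| ≤ 1) (hcl : Cl K a R) :
    (1 - Real.exp (-(R:ℝ))) ^ 2 * (Real.exp (2 * κ * a * vI I) -
      Real.exp (-(2 * (R:ℝ))) * CC (vI I) (uI I)) ≤ lam w (gE K a R I) := by
  have := h.prob
  obtain ⟨B, hB⟩ := h.bdd
  have h4 := law_exp4 hw h
  have i1 : Integrable (fun z : ℂ => Real.exp (2 * a * z.re)) ν := integrable_of_bdd hB (by fun_prop)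
  have i2 : Integrable (fun z : ℂ => Real.exp (4 * ‖z‖)) ν := integrable_of_bdd hB (by fun_prop)
  have i3 : Integrable (fun z : ℂ => z.re) ν := integrable_of_bdd hB (by fun_prop)
  have i4 : Integrable (fun z : ℂ => z) ν := integrable_of_bdd hB (by fun_prop)
  have m1 : ∫ z : ℂ, z.re ∂ν = κ * vI I := by
    have h1 := h.mom 1 0
    simp only [pow_one, pow_zero, mul_one] at h1
    rw [lam_xI hw hI] at h1
    have h2 : ∫ z : ℂ, z.re ∂ν = (∫ z : ℂ, z ∂ν).re := integral_re i4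
    rw [h2, h1, Complex.ofReal_re]
  have h5 : Real.exp (2 * κ * a * vI I) ≤ ∫ z : ℂ, Real.exp (2 * a * z.re) ∂ν := by
    set m := 2 * κ * a * vI I with hm
    have h6 : ∫ z : ℂ, Real.exp m * (1 + (2 * a * z.re - m)) ∂ν ≤ ∫ z : ℂ, Real.exp (2 * a * z.re) ∂ν := by
      refine integral_mono (((integrable_const _).add ((i3.const_mul (2 * a)).sub (integrable_const m))).const_mul _)
        i1 fun z => ?_
      have h7 := Real.add_one_le_exp (2 * a * z.re - m)
      calc Real.exp m * (1 + (2 * a * z.re - m)) ≤ Real.exp m * Real.exp (2 * a * z.re - m) :=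
            mul_le_mul_of_nonneg_left (by linarith) (Real.exp_pos _).le
        _ = Real.exp (2 * a * z.re) := by rw [← Real.exp_add]; congr 1; ring
    have h8 : ∫ z : ℂ, Real.exp m * (1 + (2 * a * z.re - m)) ∂ν = Real.exp m := by
      have j1 : Integrable (fun z : ℂ => 2 * a * z.re - m) ν := (i3.const_mul (2 * a)).sub (integrable_const m)
      rw [integral_const_mul, integral_add (integrable_const _) j1, integral_sub (i3.const_mul (2 * a))
        (integrable_const _), integral_const_mul, m1]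
      simp
      rw [hm]; ring
    rw [h8] at h6
    exact h6
  rw [lam_gE h]
  have h7 : ∫ z : ℂ, (1 - Real.exp (-(R:ℝ))) ^ 2 * (Real.exp (2 * a * z.re) -
      Real.exp (-(2 * (R:ℝ))) * Real.exp (4 * ‖z‖)) ∂ν ≤ ∫ z, gf K a R z ∂ν := by
    refine integral_mono ((i1.sub (i2.const_mul _)).const_mul _) (integrable_of_bdd hB ?_) fun z => ?_
    · unfold gf NK; fun_prop
    · have a1 := NK_sq_ge hcl ha z
      have a2 : 0 ≤ (‖z‖ / R) ^ (2 * R) := by positivity
      unfold gf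
      linarith
  rw [integral_const_mul, integral_sub i1 (i2.const_mul _), integral_const_mul] at h7
  refine le_trans (mul_le_mul_of_nonneg_left ?_ (by positivity)) h7
  have h8 := mul_le_mul_of_nonneg_left h4 (Real.exp_pos (-(2 * (R:ℝ)))).le
  linarith

end

end Pool.Agent.W184.NZ
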