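import Pool.Agent.H27.G.R_seed8.W184.NZ.Loc

set_option autoImplicit false

/-! Sizes and values of the elements `gE`. -/

namespace Pool.Agent.W184.NZ

open Finset MeasureTheory Real MonoidAlgebra

/-- nonnegative coefficients -/
def Nn (f : DA) : Prop := ∀ x, 0 ≤ f.coeff x

lemma Nn.add {f g : DA} (hf : Nn f) (hg : Nn g) : Nn (f + g) := fun x => by
  rw [coeff_add, Finsupp.add_apply]; exact add_nonneg (hf x) (hg x)

lemma Nn.zero : Nn 0 := fun x => by simp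

lemma Nn.sum {ι : Type*} {s : Finset ι} {f : ι → DA} (h : ∀ i ∈ s, Nn (f i)) : Nn (∑ i ∈ s, f i) := by
  classical
  induction s using Finset.induction_on with
  | empty => rw [sum_empty]; exact Nn.zero
  | insert a s ha ih =>
    rw [sum_insert ha]
    exact (h a (mem_insert_self _ _)).add (ih fun i hi => h i (mem_insert_of_mem hi))

lemma Nn.single (x : ℕ × ℕ) {c : ℝ} (hc : 0 ≤ c) : Nn (single x c) := by
  classical
  intro y
  rw [coeff_single, Finsupp.single_apply]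
  split_ifs
  · exact hc
  · exact le_rfl

lemma Nn.mul {f g : DA} (hf : Nn f) (hg : Nn g) : Nn (f * g) := by
  rw [MonoidAlgebra.mul_def, Finsupp.sum]
  refine Nn.sum fun x _ => ?_
  rw [Finsupp.sum]
  exact Nn.sum fun y _ => Nn.single _ (mul_nonneg (hf x) (hg y))

lemma Nn.one : Nn 1 := by
  rw [MonoidAlgebra.one_def]; exact Nn.single _ zero_le_one

lemma Nn.pow {f : DA} (hf : Nn f) (k : ℕ) : Nn (f ^ k) := by
  induction k with
  | zero => rw [pow_zero]; exact Nn.one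
  | succ k ih => rw [pow_succ]; exact ih.mul hf

lemma wl_bound {N : ℝ} {f : DA} (hf : Nn f) (hB : Bd N f) : |lam wl f| ≤ 2 * Real.log N * lam w1 f := by
  have h0 : 0 ≤ lam wl f := by
    rw [lam_apply, Finsupp.sum]
    exact sum_nonneg fun x hx => mul_nonneg (hf x) (wl_nonneg (hB x hx).1.1 (hB x hx).1.2)
  rw [abs_of_nonneg h0, lam_apply, lam_apply, Finsupp.sum, Finsupp.sum, mul_sum]
  refine sum_le_sum fun x hx => ?_
  have := wl_le (hB x hx).1.1 (hB x hx).1.2 (hB x hx).2.1 (hB x hx).2.2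
  calc f.coeff x * wl x ≤ f.coeff x * (2 * Real.log N * w1 x) := mul_le_mul_of_nonneg_left this (hf x)
    _ = _ := by ring

section

variable {I : Finset ℕ} {b : ℝ}

lemma xI_Bd (hI : ∀ p ∈ I, p.Prime ∧ (p:ℝ) ≤ b) : Bd b (xI I) := by
  refine Bd.sum fun p hp => Bd.single ⟨⟨(hI p hp).1.ne_zero, one_ne_zero⟩, (hI p hp).2, ?_⟩ 1
  have : (1:ℝ) ≤ p := by exact_mod_cast (hI p hp).1.one_lt.le
  push_cast; linarith [(hI p hp).2]

lemma yI_Bd (hI : ∀ p ∈ I, p.Prime ∧ (p:ℝ) ≤ b) : Bd b (yI I) := by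
  refine Bd.sum fun p hp => Bd.single ⟨⟨one_ne_zero, (hI p hp).1.ne_zero⟩, ?_, (hI p hp).2⟩ 1
  have : (1:ℝ) ≤ p := by exact_mod_cast (hI p hp).1.one_lt.le
  push_cast; linarith [(hI p hp).2]

lemma xI_Nn : Nn (xI I) := Nn.sum fun _ _ => Nn.single _ zero_le_one

lemma yI_Nn : Nn (yI I) := Nn.sum fun _ _ => Nn.single _ zero_le_one

lemma card_le (hb : 0 ≤ b) (hI : ∀ p ∈ I, p.Prime ∧ (p:ℝ) ≤ b) : (I.card : ℝ) ≤ b := by
  have h1 : I ⊆ Icc 1 ⌊b⌋₊ := by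
    intro p hp
    rw [mem_Icc]
    exact ⟨(hI p hp).1.one_lt.le, Nat.le_floor (hI p hp).2⟩
  have h2 := Finset.card_le_card h1
  rw [Nat.card_Icc] at h2
  have h3 := Nat.floor_le hb
  have h4 : (I.card : ℝ) ≤ ((⌊b⌋₊ + 1 - 1 : ℕ) : ℝ) := by exact_mod_cast h2
  simp only [Nat.add_sub_cancel] at h4
  linarith

lemma xI_l1 (hb : 0 ≤ b) (hI : ∀ p ∈ I, p.Prime ∧ (p:ℝ) ≤ b) : l1 (xI I) ≤ b := by
  refine (l1_sum _ _).trans ?_
  refine le_trans (le_of_eq ?_) (card_le hb hI)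
  simp [l1_single]

lemma yI_l1 (hb : 0 ≤ b) (hI : ∀ p ∈ I, p.Prime ∧ (p:ℝ) ≤ b) : l1 (yI I) ≤ b := by
  refine (l1_sum _ _).trans ?_
  refine le_trans (le_of_eq ?_) (card_le hb hI)
  simp [l1_single]

lemma NK_Bd (hb : 1 ≤ b) {f : DA} (hf : Bd b f) (K : ℕ) (a : ℝ) : Bd (b ^ K) (NK K a f) := by
  refine Bd.sum fun k hk => ((hf.pow k).smul _).mono ?_
  rw [mem_range] at hk
  exact pow_le_pow_right₀ hb (by omega)

lemma NK_l1 (hb : 1 ≤ b) {f : DA} (hf : l1 f ≤ b) (K : ℕ) {a : ℝ} (ha : |a| ≤ 1) :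
    l1 (NK K a f) ≤ 3 * b ^ K := by
  refine (l1_sum _ _).trans ?_
  have h1 : ∀ k ∈ range (K + 1), l1 ((a ^ k / (k.factorial : ℝ)) • f ^ k) ≤ b ^ K * (1 ^ k / (k.factorial : ℝ)) := by
    intro k hk
    rw [mem_range] at hk
    refine (l1_smul _ _).trans ?_
    have h2 : |a ^ k / (k.factorial : ℝ)| ≤ 1 ^ k / (k.factorial : ℝ) := by
      rw [abs_div, abs_pow, abs_of_nonneg (by positivity : (0:ℝ) ≤ (k.factorial : ℝ))]
      gcongr
    have h3 : l1 (f ^ k) ≤ b ^ K := by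
      refine (l1_pow f k).trans ?_
      refine (pow_le_pow_left₀ (l1_nonneg f) hf k).trans (pow_le_pow_right₀ hb (by omega))
    calc |a ^ k / (k.factorial : ℝ)| * l1 (f ^ k) ≤ (1 ^ k / (k.factorial : ℝ)) * b ^ K :=
          mul_le_mul h2 h3 (l1_nonneg _) (by positivity)
      _ = _ := mul_comm _ _
  refine (sum_le_sum h1).trans ?_
  rw [← mul_sum, mul_comm]
  refine mul_le_mul_of_nonneg_right ?_ (by positivity)
  refine (Real.sum_le_exp_of_nonneg zero_le_one (K + 1)).trans ?_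
  have := Real.exp_one_lt_d9
  linarith

lemma gE_Bd (hb : 1 ≤ b) (hI : ∀ p ∈ I, p.Prime ∧ (p:ℝ) ≤ b) {K R M : ℕ} (hK : K ≤ M) (hR : R ≤ M) (a : ℝ) :
    Bd (b ^ (2 * M)) (gE K a R I) := by
  unfold gE
  refine Bd.add ?_ (Bd.smul ?_ _)
  · refine ((NK_Bd hb (xI_Bd hI) K a).mul (NK_Bd hb (yI_Bd hI) K a)).mono ?_
    rw [← pow_add]
    exact pow_le_pow_right₀ hb (by omega)
  · refine (((xI_Bd hI).pow R).mul ((yI_Bd hI).pow R)).mono ?_
    rw [← pow_add]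
    exact pow_le_pow_right₀ hb (by omega)

lemma gE_l1 (hb : 10 ≤ b) (hI : ∀ p ∈ I, p.Prime ∧ (p:ℝ) ≤ b) {K R M : ℕ} (hK : K ≤ M) (hR : R ≤ M)
    (hR1 : 1 ≤ R) {a : ℝ} (ha : |a| ≤ 1) : l1 (gE K a R I) ≤ b ^ (3 * M) := by
  have hb1 : 1 ≤ b := by linarith
  have hb0 : 0 ≤ b := by linarith
  have h1 : l1 (NK K a (xI I) * NK K a (yI I)) ≤ 9 * b ^ (2 * M) := by
    refine (l1_mul _ _).trans ?_
    calc l1 (NK K a (xI I)) * l1 (NK K a (yI I)) ≤ (3 * b ^ K) * (3 * b ^ K) :=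
          mul_le_mul (NK_l1 hb1 (xI_l1 hb0 hI) K ha) (NK_l1 hb1 (yI_l1 hb0 hI) K ha) (l1_nonneg _) (by positivity)
      _ = 9 * b ^ (2 * K) := by rw [two_mul, pow_add]; ring
      _ ≤ 9 * b ^ (2 * M) := by gcongr
  have h2 : l1 (((1 / (R:ℝ)) ^ (2 * R)) • (xI I ^ R * yI I ^ R)) ≤ b ^ (2 * M) := by
    refine (l1_smul _ _).trans ?_
    have hR' : (1:ℝ) ≤ R := by exact_mod_cast hR1
    have h3 : |((1 / (R:ℝ)) ^ (2 * R))| ≤ 1 := by
      rw [abs_of_nonneg (by positivity)]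
      refine pow_le_one₀ (by positivity) ?_
      rw [div_le_one (by linarith)]; exact hR'
    have h4 : l1 (xI I ^ R * yI I ^ R) ≤ b ^ (2 * M) := by
      refine (l1_mul _ _).trans ?_
      calc l1 (xI I ^ R) * l1 (yI I ^ R) ≤ b ^ R * b ^ R := by
            refine mul_le_mul ((l1_pow _ _).trans ?_) ((l1_pow _ _).trans ?_) (l1_nonneg _) (by positivity)
            · exact pow_le_pow_left₀ (l1_nonneg _) (xI_l1 hb0 hI) R
            · exact pow_le_pow_left₀ (l1_nonneg _) (yI_l1 hb0 hI) R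
        _ = b ^ (2 * R) := by rw [two_mul, pow_add]
        _ ≤ b ^ (2 * M) := pow_le_pow_right₀ hb1 (by omega)
    calc |((1 / (R:ℝ)) ^ (2 * R))| * l1 (xI I ^ R * yI I ^ R) ≤ 1 * b ^ (2 * M) :=
          mul_le_mul h3 h4 (l1_nonneg _) zero_le_one
      _ = _ := one_mul _
  unfold gE
  refine (l1_add _ _).trans ?_
  have h5 : b ^ (2 * M) * 10 ≤ b ^ (3 * M) := by
    calc b ^ (2 * M) * 10 ≤ b ^ (2 * M) * b ^ 1 := by rw [pow_one]; gcongr
      _ ≤ b ^ (2 * M) * b ^ M := by gcongr <;> first | exact hb1 | omega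
      _ = b ^ (3 * M) := by rw [← pow_add]; congr 1; ring
  linarith

lemma NK_mem {M : Submonoid (ℕ × ℕ)} {f : DA} (hf : f ∈ SA M) (K : ℕ) (a : ℝ) : NK K a f ∈ SA M :=
  Subalgebra.sum_mem _ fun k _ => Subalgebra.smul_mem _ (Subalgebra.pow_mem _ hf k) _

lemma gE_mem (hI : ∀ p ∈ I, p.Prime) (K : ℕ) (a : ℝ) (R : ℕ) : gE K a R I ∈ SA (MI I) :=
  Subalgebra.add_mem _ (Subalgebra.mul_mem _ (NK_mem (xI_mem hI) K a) (NK_mem (yI_mem hI) K a))
    (Subalgebra.smul_mem _ (Subalgebra.mul_mem _ (Subalgebra.pow_mem _ (xI_mem hI) R)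
      (Subalgebra.pow_mem _ (yI_mem hI) R)) _)

/-- the logarithmic functional of the local factor -/
lemma gE_wl (hb : 1 ≤ b) (hI : ∀ p ∈ I, p.Prime ∧ (p:ℝ) ≤ b) {K R M : ℕ} (hK : K ≤ M) (hR : R ≤ M) (a : ℝ) :
    |lam wl (gE K a R I)| ≤ 4 * M * Real.log b * lam w1 (gE K |a| R I) := by
  have hlog : ∀ f : DA, Nn f → Bd (b ^ (2 * M)) f → |lam wl f| ≤ 4 * M * Real.log b * lam w1 f := by
    intro f h1 h2
    have := wl_bound h1 h2
    rw [Real.log_pow] at this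
    refine this.trans (le_of_eq ?_)
    push_cast; ring
  have hB : ∀ k l : ℕ, k ≤ M → l ≤ M → Bd (b ^ (2 * M)) (xI I ^ k * yI I ^ l) := by
    intro k l hk hl
    refine (((xI_Bd hI).pow k).mul ((yI_Bd hI).pow l)).mono ?_
    rw [← pow_add]
    exact pow_le_pow_right₀ hb (by omega)
  have hN : ∀ k l : ℕ, Nn (xI I ^ k * yI I ^ l) := fun k l => (xI_Nn.pow k).mul (yI_Nn.pow l)
  have e1 : ∀ a : ℝ, gE K a R I = (∑ k ∈ range (K + 1), ∑ l ∈ range (K + 1),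
      (a ^ k / (k.factorial : ℝ) * (a ^ l / (l.factorial : ℝ))) • (xI I ^ k * yI I ^ l)) +
      ((1 / (R:ℝ)) ^ (2 * R)) • (xI I ^ R * yI I ^ R) := by
    intro a
    unfold gE NK
    rw [sum_mul_sum]
    congr 1
    refine sum_congr rfl fun k _ => sum_congr rfl fun l _ => ?_
    rw [smul_mul_smul_comm]
  rw [e1, e1, map_add, map_add, map_sum, map_sum]
  refine (abs_add_le _ _).trans ?_
  rw [mul_add]
  refine add_le_add ?_ ?_
  · refine (abs_sum_le_sum_abs _ _).trans ?_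
    rw [mul_sum]
    refine sum_le_sum fun k hk => ?_
    rw [map_sum, map_sum]
    refine (abs_sum_le_sum_abs _ _).trans ?_
    rw [mul_sum]
    refine sum_le_sum fun l hl => ?_
    rw [mem_range] at hk hl
    rw [map_smul, map_smul, smul_eq_mul, smul_eq_mul, abs_mul]
    have h1 : |a ^ k / (k.factorial : ℝ) * (a ^ l / (l.factorial : ℝ))| =
        |a| ^ k / (k.factorial : ℝ) * (|a| ^ l / (l.factorial : ℝ)) := by
      rw [abs_mul, abs_div, abs_div, abs_pow, abs_pow, Nat.abs_cast, Nat.abs_cast]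
    rw [h1]
    have h2 := hlog _ (hN k l) (hB k l (by omega) (by omega))
    have h3 : 0 ≤ |a| ^ k / (k.factorial : ℝ) * (|a| ^ l / (l.factorial : ℝ)) := by positivity
    calc _ ≤ |a| ^ k / (k.factorial : ℝ) * (|a| ^ l / (l.factorial : ℝ)) *
          (4 * M * Real.log b * lam w1 (xI I ^ k * yI I ^ l)) := mul_le_mul_of_nonneg_left h2 h3
      _ = _ := by ring
  · rw [map_smul, map_smul, smul_eq_mul, smul_eq_mul, abs_mul]
    have h2 := hlog _ (hN R R) (hB R R hR hR)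
    have h3 : 0 ≤ (1 / (R:ℝ)) ^ (2 * R) := by positivity
    rw [abs_of_nonneg h3]
    calc _ ≤ (1 / (R:ℝ)) ^ (2 * R) * (4 * M * Real.log b * lam w1 (xI I ^ R * yI I ^ R)) :=
          mul_le_mul_of_nonneg_left h2 h3
      _ = _ := by ring

end

/-- the monomials as functions of `t` -/
noncomputable def mh (t : ℝ) : ℕ × ℕ →* ℂ where
  toFun x := (x.1 : ℂ) ^ (-(1 / 2 + t * Complex.I)) * (x.2 : ℂ) ^ (-(1 / 2 - t * Complex.I))
  map_one' := by simp
  map_mul' x y := by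
    simp only [Prod.fst_mul, Prod.snd_mul, Nat.cast_mul]
    rw [Complex.natCast_mul_natCast_cpow, Complex.natCast_mul_natCast_cpow]
    ring

/-- evaluation -/
noncomputable def ev (t : ℝ) : DA →ₐ[ℝ] ℂ := MonoidAlgebra.lift ℝ ℂ (ℕ × ℕ) (mh t)

lemma ev_single (t : ℝ) (x : ℕ × ℕ) (c : ℝ) : ev t (single x c) = c * mh t x := by
  unfold ev; rw [MonoidAlgebra.lift_single, Complex.real_smul]

lemma ev_apply (t : ℝ) (f : DA) : ev t f = ∑ x ∈ f.coeff.support, (f.coeff x : ℂ) * mh t x := by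
  unfold ev
  rw [MonoidAlgebra.lift_apply, Finsupp.sum]
  refine sum_congr rfl fun x _ => ?_
  rw [Complex.real_smul]

lemma natCast_cpow_conj (n : ℕ) (hn : n ≠ 0) (s : ℂ) :
    (n : ℂ) ^ (starRingEnd ℂ s) = starRingEnd ℂ ((n : ℂ) ^ s) := by
  have h0 : (n:ℂ) ≠ 0 := by exact_mod_cast hn
  rw [Complex.cpow_def_of_ne_zero h0, Complex.cpow_def_of_ne_zero h0, ← Complex.exp_conj, map_mul,
    ← Complex.natCast_log, Complex.conj_ofReal]

/-- the sum over the primes of `I` -/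
noncomputable def PI (I : Finset ℕ) (s : ℂ) : ℂ := ∑ p ∈ I, (p : ℂ) ^ (-s)

lemma ev_xI (t : ℝ) (I : Finset ℕ) : ev t (xI I) = PI I (1 / 2 + t * Complex.I) := by
  unfold xI PI
  rw [map_sum]
  refine sum_congr rfl fun p _ => ?_
  rw [ev_single]
  simp [mh]

lemma ev_yI (t : ℝ) {I : Finset ℕ} (hI : ∀ p ∈ I, p.Prime) :
    ev t (yI I) = starRingEnd ℂ (PI I (1 / 2 + t * Complex.I)) := by
  unfold yI PI
  rw [map_sum, map_sum]
  refine sum_congr rfl fun p hp => ?_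
  rw [ev_single, ← natCast_cpow_conj p (hI p hp).ne_zero]
  have e : (starRingEnd ℂ) (-(1 / 2 + (t:ℂ) * Complex.I)) = -(1 / 2 - (t:ℂ) * Complex.I) := by
    rw [map_neg, map_add, map_mul, Complex.conj_ofReal, Complex.conj_I, map_div₀, map_one, map_ofNat]
    ring
  rw [e]
  simp [mh]

lemma ev_gE (t : ℝ) {I : Finset ℕ} (hI : ∀ p ∈ I, p.Prime) (K : ℕ) (a : ℝ) (R : ℕ) :
    ev t (gE K a R I) = ((gf K a R (PI I (1 / 2 + t * Complex.I)) : ℝ) : ℂ) := by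
  unfold gE gf
  rw [map_add, map_mul, NK_map, NK_map, map_smul, map_mul, map_pow, map_pow, ev_xI, ev_yI t hI, NK_sq,
    ← mul_pow, Complex.mul_conj, Complex.normSq_eq_norm_sq, Complex.real_smul]
  push_cast
  rw [div_pow, div_pow, ← pow_mul]
  ring

end Pool.Agent.W184.NZ
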